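import Pool.Agent.MP_dfae13_nt.R.Defs

/-!
# The Birch and Swinnerton-Dyer formula for Weil restrictions: definitions for the final statement
-/

set_option autoImplicit false

open NumberField IsDedekindDomain
open scoped Classical

namespace WR

variable {K : Type} [Field K] [NumberField K] (W : WeierstrassCurve K)

/-- The quotient `a #A(ℚ)_tors #A'(ℚ)_tors / (V_∞ V_bad)`; the abelian variety `A = Res_{K/ℚ} W` is
isomorphic to its dual `A'`. If `A(ℚ)` is finite and `a = L(A, 1)`, the conjecture asserts that it is
the order of the Tate–Shafarevich group. -/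
noncomputable def bsdQuotient (S : Finset ℕ) (a : ℂ) : ℂ :=
  a * (Nat.card (AddCommGroup.torsion (rationalPoints W)) : ℂ) ^ 2 /
    ((Vinf W : ℂ) * (Vbad W S : ℂ))

/-- The conjecture for `A = Res_{K/ℚ} W` (with rank 0) up to odd primes: `A(ℚ)` is finite (so that its
rank is 0 and its regulator is 1), the Euler product extends to an entire function `L` whose order of
vanishing at `1` is the rank of `A(ℚ)`, with `L(1) ≠ 0`, the Tate–Shafarevich group of `A` has no
nonzero element of `2`-power order, and the quotient `L(1) #A(ℚ)_tors #A'(ℚ)_tors / (V_∞ V_bad)` is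
a positive rational number whose `2`-adic valuation is 0. -/
def TwoPartFormula (S : Finset ℕ) : Prop :=
  Finite (rationalPoints W) ∧ ∃ L : ℂ → ℂ, IsEntireL W S L ∧
    analyticOrderAt L 1 = Module.finrank ℤ (rationalPoints W) ∧ L 1 ≠ 0 ∧
    (∀ (x : Sha W) (k : ℕ), 2 ^ k • x = 0 → x = 0) ∧
    ∃ q : ℚ, 0 < q ∧ padicValRat 2 q = 0 ∧ bsdQuotient W S (L 1) = q

end WR
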