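import Pool.Agent.MP_dfae13_nt.R.Basic

/-!
# [RES-2] homomorphisms `ℚ_p → K_w`, `ℝ → K_w`
-/

set_option autoImplicit false

open NumberField IsDedekindDomain WeierstrassCurve.Affine Polynomial
open scoped Classical

namespace WR

open WithZero in
theorem exists_padic_hom (K : Type) [Field K] [NumberField K] (w : HeightOneSpectrum (𝓞 K)) :
    ∃ (p : ℕ) (_ : Fact p.Prime), Nonempty (ℚ_[p] →+* w.adicCompletion K) := by
  -- the prime number below `w`
  have hfin : Finite (𝓞 K ⧸ w.asIdeal) := Ideal.finiteQuotientOfFreeOfNeBot _ w.ne_bot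
  have hdom : IsDomain (𝓞 K ⧸ w.asIdeal) := by
    have := w.isPrime
    infer_instance
  obtain ⟨p, hcp⟩ := CharP.exists (𝓞 K ⧸ w.asIdeal)
  have hp : p.Prime := by
    rcases CharP.char_is_prime_or_zero (𝓞 K ⧸ w.asIdeal) p with h | h
    · exact h
    · exfalso
      rw [h] at hcp
      have := CharP.charP_to_charZero (𝓞 K ⧸ w.asIdeal)
      exact not_injective_infinite_finite (Nat.cast : ℕ → 𝓞 K ⧸ w.asIdeal) Nat.cast_injective
  have hpf : Fact p.Prime := ⟨hp⟩
  have hpw : ∀ n : ℕ, ((n : ℕ) : 𝓞 K) ∈ w.asIdeal ↔ p ∣ n := by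
    intro n
    rw [← Ideal.Quotient.eq_zero_iff_mem, map_natCast, CharP.cast_eq_zero_iff (𝓞 K ⧸ w.asIdeal) p]
  refine ⟨p, hpf, ?_⟩
  -- the valuation of rational numbers
  have hval_int : ∀ n : ℤ, w.valuation K ((n : ℤ) : K) ≤ 1 := by
    intro n
    have := w.valuation_le_one (K := K) (n : 𝓞 K)
    simpa using this
  have hval_nat : ∀ n : ℕ, ¬ p ∣ n → w.valuation K ((n : ℕ) : K) = 1 := by
    intro n hn
    have h1 := (w.valuation_lt_one_iff_mem (K := K) (n : 𝓞 K)).not.2 (fun h => hn ((hpw n).1 h))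
    have h2 := w.valuation_le_one (K := K) (n : 𝓞 K)
    have h3 := le_antisymm h2 (not_lt.1 h1)
    simpa using h3
  have hval_p : w.valuation K ((p : ℕ) : K) ≤ exp (-1 : ℤ) := by
    have h1 := (w.valuation_lt_one_iff_mem (K := K) (p : 𝓞 K)).2 ((hpw p).2 dvd_rfl)
    have h1' : w.valuation K ((p : ℕ) : K) < 1 := by simpa using h1
    have h0 : w.valuation K ((p : ℕ) : K) ≠ 0 := by
      rw [(w.valuation K).ne_zero_iff]
      exact_mod_cast hp.ne_zero
    rw [← exp_log h0] at h1' ⊢
    rw [← exp_zero, exp_lt_exp] at h1'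
    rw [exp_le_exp]
    omega
  have hle1 : ∀ y : ℚ, Rat.padicValuation p y ≤ 1 → w.valuation K ((y : ℚ) : K) ≤ 1 := by
    intro y hy
    rw [Rat.padicValuation_le_one_iff] at hy
    have e : ((y : ℚ) : K) = (y.num : K) / (y.den : K) := Rat.cast_def y
    rw [e, map_div₀, hval_nat _ hy, div_one]
    exact hval_int _
  have hle : ∀ (n : ℕ) (x : ℚ), Rat.padicValuation p x ≤ exp (-(n : ℤ)) →
      w.valuation K ((x : ℚ) : K) ≤ exp (-(n : ℤ)) := by
    intro n x hx
    have hp0 : (p : ℚ) ≠ 0 := by exact_mod_cast hp.ne_zero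
    have hvp : Rat.padicValuation p ((p : ℚ) ^ n) = exp (-(n : ℤ)) := by
      rw [map_pow, Rat.padicValuation_self, ← exp_nsmul]
      simp
    have h1 : Rat.padicValuation p (x / (p : ℚ) ^ n) ≤ 1 := by
      rw [map_div₀, hvp]
      exact div_le_one_of_le₀ hx zero_le
    have h2 := hle1 _ h1
    have e : ((x : ℚ) : K) = ((x / (p : ℚ) ^ n : ℚ) : K) * (p : K) ^ n := by
      push_cast
      have : (p : K) ≠ 0 := by exact_mod_cast hp.ne_zero
      field_simp
    rw [e, map_mul, map_pow]
    calc w.valuation K ((x / (p : ℚ) ^ n : ℚ) : K) * w.valuation K (p : K) ^ n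
        ≤ 1 * exp (-1 : ℤ) ^ n := mul_le_mul' h2 (pow_le_pow_left' hval_p n)
      _ = exp (-(n : ℤ)) := by
        rw [one_mul, ← exp_nsmul]
        simp
  -- the homomorphism
  let f : WithVal (Rat.padicValuation p) →+* w.adicCompletion K :=
    ((algebraMap K (w.adicCompletion K)).comp (algebraMap ℚ K)).comp
      (WithVal.equiv (Rat.padicValuation p)).toRingHom
  have hfv : ∀ x : WithVal (Rat.padicValuation p), Valued.v (f x) =
      w.valuation K (((WithVal.equiv (Rat.padicValuation p) x : ℚ)) : K) := by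
    intro x
    exact w.valuedAdicCompletion_eq_valuation' _
  have hf : Continuous f := by
    refine continuous_of_continuousAt_zero f ?_
    rw [ContinuousAt, map_zero, (Valued.hasBasis_nhds_zero _ _).tendsto_iff
      (Valued.hasBasis_nhds_zero _ _)]
    intro γ _
    set m : ℤ := log (MonoidWithZeroHom.ValueGroup₀.embedding γ.1) with hm
    set n : ℕ := (1 - m).toNat with hn
    have hpn : Valued.v (R := WithVal (Rat.padicValuation p)) ((p : WithVal _) ^ n) =
        exp (-(n : ℤ)) := by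
      simp only [← WithVal.val_apply_equiv, map_pow, map_natCast, Rat.padicValuation_self,
        Int.reduceNeg, exp_neg, inv_pow, ← exp_nsmul, nsmul_eq_mul, mul_one]
    refine ⟨Units.mk0 (Valued.v.restrict ((p : WithVal (Rat.padicValuation p)) ^ n)) ?_, trivial,
      ?_⟩
    · simp [Valuation.restrict_def, hp.ne_zero]
    · intro x hx
      rw [Set.mem_ofPred_eq, Units.val_mk0, Valuation.restrict_lt_iff, hpn] at hx
      rw [Set.mem_ofPred_eq, Valuation.restrict_lt_iff_lt_embedding, hfv]
      refine lt_of_le_of_lt (hle n _ hx.le) ?_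
      rw [← lt_log_iff_exp_lt (MonoidWithZeroHom.ValueGroup₀.embedding_unit_ne_zero _), ← hm]
      omega
  exact ⟨(UniformSpace.Completion.extensionHom f hf).comp
    (Padic.withValRingEquiv (p := p)).symm.toRingHom⟩

theorem exists_real_hom (K : Type) [Field K] [NumberField K] (w : InfinitePlace K) :
    Nonempty (ℝ →+* w.Completion) := by
  by_cases h : w.IsReal
  · exact ⟨(InfinitePlace.Completion.ringEquivRealOfIsReal h).symm.toRingHom⟩
  · rw [InfinitePlace.not_isReal_iff_isComplex] at h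
    exact ⟨(InfinitePlace.Completion.ringEquivComplexOfIsComplex h).symm.toRingHom.comp
      Complex.ofRealHom⟩

end WR
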