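import Pool.Agent.MP_dfae13_nt.R.R4a
import Pool.Agent.MP_dfae13_nt.R.R2

/-!
# [RES-4b] the Tate–Shafarevich groups
-/

set_option autoImplicit false

open NumberField IsDedekindDomain WeierstrassCurve.Affine Polynomial
open scoped Classical Topology

namespace WR

variable {K : Type} [Field K] [NumberField K] (W : WeierstrassCurve K)
  (ψ : AlgebraicClosure K ≃+* QBar)

/-- the base embedding -/
noncomputable abbrev tau0 : K →+* QBar :=
  (ψ : AlgebraicClosure K →+* QBar).comp (algebraMap K (AlgebraicClosure K))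

theorem resG_apply (σ : SBSD.AbsGal K) (x : QBar) : resG ψ σ x = ψ (σ (ψ.symm x)) := rfl

theorem resG_mul (σ τ : SBSD.AbsGal K) : resG ψ (σ * τ) = resG ψ σ * resG ψ τ := by
  ext x
  rw [AlgEquiv.mul_apply, resG_apply, resG_apply, resG_apply, ψ.symm_apply_apply]
  rfl

theorem resG_tau0 (σ : SBSD.AbsGal K) : (resG ψ σ : QBar →+* QBar).comp (tau0 ψ) = tau0 ψ := by
  ext x
  show resG ψ σ (tau0 ψ x) = tau0 ψ x
  rw [resG_apply]
  simp

/-- Every automorphism which fixes `τ₀` is a restriction. -/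
theorem exists_resG (g : GQ) (hg : (g : QBar →+* QBar).comp (tau0 ψ) = tau0 ψ) :
    ∃ σ : SBSD.AbsGal K, resG ψ σ = g := by
  have h1 : ∀ x : K, g (ψ (algebraMap K (AlgebraicClosure K) x)) =
      ψ (algebraMap K (AlgebraicClosure K) x) := fun x =>
    congrArg (fun f : K →+* QBar => f x) hg
  refine ⟨AlgEquiv.ofRingEquiv (f := (ψ.trans g.toRingEquiv).trans ψ.symm) (fun x => ?_), ?_⟩
  · show ψ.symm (g (ψ (algebraMap K (AlgebraicClosure K) x))) = _
    rw [h1, ψ.symm_apply_apply]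
  · ext x
    rw [resG_apply]
    show ψ (ψ.symm (g (ψ (ψ.symm x)))) = g x
    rw [ψ.apply_symm_apply, ψ.apply_symm_apply]

theorem resG_continuous : Continuous (resG ψ) := by
  let f : SBSD.AbsGal K →* GQ := MonoidHom.mk' (resG ψ) (resG_mul ψ)
  have hf : ContinuousAt f 1 := by
    rw [ContinuousAt, map_one]
    intro s hs
    rw [krullTopology_mem_nhds_one_iff] at hs
    obtain ⟨E, hE, hEs⟩ := hs
    rw [Filter.mem_map, krullTopology_mem_nhds_one_iff]
    let b := Module.finBasis ℚ E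
    let S : Set (AlgebraicClosure K) := Set.range fun i => ψ.symm (b i : QBar)
    have hfin : Finite S := Set.finite_range _
    refine ⟨IntermediateField.adjoin K S,
      IntermediateField.finiteDimensional_adjoin fun x _ =>
        (Algebra.IsAlgebraic.isAlgebraic (R := K) x).isIntegral, ?_⟩
    intro σ hσ
    apply hEs
    have hσ' : ∀ i, σ (ψ.symm (b i : QBar)) = ψ.symm (b i : QBar) := fun i =>
      (IntermediateField.mem_fixingSubgroup_iff _ _).1 hσ _
        (IntermediateField.subset_adjoin K S ⟨i, rfl⟩)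
    refine (IntermediateField.mem_fixingSubgroup_iff _ _).2 fun x hx => ?_
    show resG ψ σ x = x
    have h1 : (⟨x, hx⟩ : E) = ∑ i, b.repr ⟨x, hx⟩ i • b i := (b.sum_repr _).symm
    have h2 : x = ∑ i, algebraMap ℚ QBar (b.repr ⟨x, hx⟩ i) * (b i : QBar) := by
      have := congrArg (fun z : E => (z : QBar)) h1
      simp only [AddSubmonoidClass.coe_finsetSum, Algebra.smul_def] at this
      exact this
    rw [h2, map_sum]
    refine Finset.sum_congr rfl fun i _ => ?_
    rw [map_mul, AlgEquiv.commutes, resG_apply ψ σ (b i : QBar), hσ', ψ.apply_symm_apply]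
  exact continuous_of_continuousAt_one f hf

theorem comp0_apply (c : GQ → APt W QBar) (σ : SBSD.AbsGal K) :
    comp0 W ψ c σ = mapPt W (τ' := algebraMap K (AlgebraicClosure K))
      (ψ.symm : QBar →+* AlgebraicClosure K) (by ext x; simp) (c (resG ψ σ) (tau0 ψ)) := rfl

theorem comp0_map (σ : SBSD.AbsGal K) (P : (W.map (tau0 ψ)).toAffine.Point) :
    Point.map (σ : SBSD.AbsGal K).toAlgHom (mapPt W (τ' := algebraMap K (AlgebraicClosure K))
      (ψ.symm : QBar →+* AlgebraicClosure K) (by ext x; simp) P) =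
    mapPt W (τ' := algebraMap K (AlgebraicClosure K))
      (ψ.symm : QBar →+* AlgebraicClosure K) (by ext x; simp)
      (mapPt W (resG ψ σ : QBar →+* QBar) (resG_tau0 ψ σ) P) := by
  refine (r4c_map W σ.toAlgHom _).trans ?_
  refine (mapPt_mapPt W _ _ _ _ P).trans ?_
  rw [mapPt_mapPt]
  refine mapPt_congr W ?_ _ _ _
  ext x
  show σ (ψ.symm x) = ψ.symm (resG ψ σ x)
  rw [resG_apply, ψ.symm_apply_apply]

theorem comp0_mem_cocycles (c : GQ → APt W QBar) (hc : c ∈ cocycles W) :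
    comp0 W ψ c ∈ SBSD.cocycles W := by
  refine ⟨?_, ?_⟩
  · exact (hc.1.comp_continuous (resG_continuous ψ)).comp fun P : APt W QBar =>
      mapPt W (τ' := algebraMap K (AlgebraicClosure K))
      (ψ.symm : QBar →+* AlgebraicClosure K) (by ext x; simp) (P (tau0 ψ))
  · intro σ τ
    rw [comp0_apply, comp0_apply, comp0_apply, resG_mul,
      r4a_cocycle W hc _ _ _ _ (resG_tau0 ψ σ), map_add]
    congr 1
    exact (comp0_map W ψ σ _).symm

theorem comp0_add (a b : GQ → APt W QBar) : comp0 W ψ (a + b) = comp0 W ψ a + comp0 W ψ b := by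
  funext σ
  exact map_add _ _ _

theorem comp0_nsmul (n : ℕ) (a : GQ → APt W QBar) : comp0 W ψ (n • a) = n • comp0 W ψ a := by
  induction n with
  | zero =>
    rw [zero_smul, zero_smul]
    funext σ
    exact map_zero _
  | succ n ih => rw [succ_nsmul, succ_nsmul, comp0_add, ih]

omit [NumberField K] in
theorem r4b_cob {c : GQ → APt W QBar} {P : APt W QBar} (hP : ∀ (g : GQ) (τ : K →+* QBar),
    c g (act g τ) = mapPt W (g : QBar →+* QBar) rfl (P τ) - P (act g τ)) (g : GQ)
    (τ τ' : K →+* QBar) (hτ : (g : QBar →+* QBar).comp τ = τ') :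
    c g τ' = mapPt W (g : QBar →+* QBar) hτ (P τ) - P τ' := by
  subst hτ
  exact hP g τ

theorem comp0_mem_coboundaries (c : GQ → APt W QBar) (hc : c ∈ coboundaries W) :
    comp0 W ψ c ∈ SBSD.coboundaries W := by
  obtain ⟨P, hP⟩ := hc
  refine ⟨mapPt W (τ' := algebraMap K (AlgebraicClosure K))
      (ψ.symm : QBar →+* AlgebraicClosure K) (by ext x; simp) (P (tau0 ψ)), fun σ => ?_⟩
  rw [comp0_map, comp0_apply, r4b_cob W hP _ _ _ (resG_tau0 ψ σ)]
  exact map_sub _ _ _

theorem comp0_coboundary (c : GQ → APt W QBar) (hc : c ∈ cocycles W)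
    (h : comp0 W ψ c ∈ SBSD.coboundaries W) : c ∈ coboundaries W := by
  obtain ⟨P, hP⟩ := h
  have e1 : ∀ Q : (W.map (tau0 ψ)).toAffine.Point,
      mapPt W (ψ : AlgebraicClosure K →+* QBar) rfl (mapPt W
        (τ' := algebraMap K (AlgebraicClosure K)) (ψ.symm : QBar →+* AlgebraicClosure K)
        (by ext x; simp) Q) = Q := by
    intro Q
    rw [mapPt_mapPt]
    refine (mapPt_congr W (f' := RingHom.id QBar) ?_ _ rfl Q).trans (mapPt_id' W _ _)
    ext x
    exact ψ.apply_symm_apply x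
  refine coboundary_of_component W (tau0 ψ) c hc
    (mapPt W (ψ : AlgebraicClosure K →+* QBar) rfl P) fun g hg => ?_
  obtain ⟨σ, rfl⟩ := exists_resG ψ g hg
  have h1 := hP σ
  rw [comp0_apply] at h1
  have h2 := congrArg (mapPt W (τ := algebraMap K (AlgebraicClosure K)) (τ' := tau0 ψ)
    (ψ : AlgebraicClosure K →+* QBar) rfl) h1
  rw [e1] at h2
  refine h2.trans ((map_sub (mapPt W (τ := algebraMap K (AlgebraicClosure K)) (τ' := tau0 ψ)
    (ψ : AlgebraicClosure K →+* QBar) rfl) (Point.map σ.toAlgHom P) P).trans ?_)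
  refine congrArg (fun z => z - mapPt W (ψ : AlgebraicClosure K →+* QBar) rfl P) ?_
  refine (congrArg (mapPt W (τ := algebraMap K (AlgebraicClosure K)) (τ' := tau0 ψ)
    (ψ : AlgebraicClosure K →+* QBar) rfl) (r4c_map W σ.toAlgHom P)).trans ?_
  refine (mapPt_mapPt W _ _ _ _ P).trans ?_
  refine Eq.trans ?_ (mapPt_mapPt W _ _ _ _ P).symm
  refine mapPt_congr W ?_ _ _ _
  ext x
  show ψ (σ x) = resG ψ σ (ψ x)
  rw [resG_apply, ψ.symm_apply_apply]

theorem exists_psi (K : Type) [Field K] [NumberField K] :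
    Nonempty (AlgebraicClosure K ≃+* QBar) := by
  have h1 := r4c_alg_QBar
  have h2 : IsAlgClosure ℚ QBar := ⟨inferInstance, h1⟩
  have h3 : IsAlgClosure ℚ (AlgebraicClosure K) := IsAlgClosure.ofAlgebraic ℚ K (AlgebraicClosure K)
  exact ⟨(IsAlgClosure.equiv ℚ (AlgebraicClosure K) QBar).toRingEquiv⟩

theorem comp0_locTrivial (c : GQ → APt W QBar) (hc : c ∈ locTrivial W) :
    comp0 W ψ c ∈ SBSD.locTrivial W := by
  obtain ⟨h1, h2, h3⟩ := hc
  refine ⟨comp0_mem_cocycles W ψ c h1, fun v => ?_, fun v => ?_⟩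
  · obtain ⟨p, hp, ⟨f⟩⟩ := exists_padic_hom K v
    exact comp0_trivialOver W ψ c h1 ℚ_[p] _ f (h2 p)
  · obtain ⟨f⟩ := exists_real_hom K v
    exact comp0_trivialOver W ψ c h1 ℝ _ f h3

theorem sha_trivial {K : Type} [Field K] [NumberField K] (W : WeierstrassCurve K)
    (h : ∀ (x : SBSD.Sha W) (k : ℕ), 2 ^ k • x = 0 → x = 0) :
    ∀ (x : Sha W) (k : ℕ), 2 ^ k • x = 0 → x = 0 := by
  obtain ⟨ψ⟩ := exists_psi K
  intro x k hx
  obtain ⟨c, rfl⟩ := QuotientAddGroup.mk_surjective x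
  have h1 : (2 ^ k • c : locTrivial W) ∈ (coboundaries W).addSubgroupOf (locTrivial W) := by
    rw [← QuotientAddGroup.eq_zero_iff]
    exact hx
  have h2 : (2 ^ k • c.1) ∈ coboundaries W := AddSubgroup.mem_addSubgroupOf.1 h1
  let d : SBSD.locTrivial W := ⟨comp0 W ψ c.1, comp0_locTrivial W ψ c.1 c.2⟩
  have h3 : 2 ^ k • (QuotientAddGroup.mk d : SBSD.Sha W) = 0 := by
    have h4 : (2 ^ k • d) ∈ (SBSD.coboundaries W).addSubgroupOf (SBSD.locTrivial W) := by
      rw [AddSubgroup.mem_addSubgroupOf]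
      show 2 ^ k • comp0 W ψ c.1 ∈ _
      rw [← comp0_nsmul]
      exact comp0_mem_coboundaries W ψ _ h2
    exact (QuotientAddGroup.eq_zero_iff _).2 h4
  have h5 := h _ k h3
  have h6 : comp0 W ψ c.1 ∈ SBSD.coboundaries W :=
    AddSubgroup.mem_addSubgroupOf.1 ((QuotientAddGroup.eq_zero_iff d).1 h5)
  exact (QuotientAddGroup.eq_zero_iff _).2 (AddSubgroup.mem_addSubgroupOf.2
    (comp0_coboundary W ψ c.1 c.2.1 h6))

end WR
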