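import Pool.Agent.MP_dfae13_nt.R.Basic
import Pool.Agent.MP_dfae13_nt.T.TE2

/-!
# [RES-5] the Euler product of a Weil restriction
-/

set_option autoImplicit false

open NumberField IsDedekindDomain WeierstrassCurve.Affine Polynomial ArithmeticFunction
open scoped Classical
open CM27 CMT

namespace WR

/-- `loc p` as a ring homomorphism -/
noncomputable def r5_locHom (R : Type) [CommRing R] {p : ℕ} (hp : p.Prime) :
    ArithmeticFunction R →+* PowerSeries R where
  toFun := loc p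
  map_one' := loc_one hp
  map_mul' := loc_mul hp
  map_zero' := by
    ext k
    rw [coeff_loc]
    simp
  map_add' := loc_add

theorem r5_loc_poly {p f : ℕ} (hp : p.Prime) (hf : 0 < f) (P : ℤ[X]) :
    loc p (ofPowerSeries (p ^ f) (P : PowerSeries ℤ)) =
      ((P.comp (X ^ f) : ℤ[X]) : PowerSeries ℤ) := by
  have h : ((r5_locHom ℤ hp).comp ((ofPowerSeries (p ^ f) :
      PowerSeries ℤ →ₐ[ℤ] ArithmeticFunction ℤ) : PowerSeries ℤ →+* ArithmeticFunction ℤ)).comp
        (Polynomial.coeToPowerSeries.ringHom : ℤ[X] →+* PowerSeries ℤ) =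
      (Polynomial.coeToPowerSeries.ringHom : ℤ[X] →+* PowerSeries ℤ).comp
        (Polynomial.compRingHom (X ^ f)) := by
    apply Polynomial.ringHom_ext
    · intro a
      simp
    · have h1 := loc_ofPowerSeries_X (R := ℤ) hp hf
      simp [r5_locHom, h1]
  exact congrArg (fun g : ℤ[X] →+* PowerSeries ℤ => g P) h

section
variable {K : Type} [Field K] [NumberField K] (W : WeierstrassCurve K)

theorem r5_qv (v : HeightOneSpectrum (𝓞 K)) : CM27.qv K v = qv v := (card_residue K v).1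

theorem r5_finite {p : ℕ} (hp : p.Prime) : (above K p).Finite := by
  have h : (Ideal.span {(p : 𝓞 K)}) ≠ ⊥ := by
    simp [hp.ne_zero]
  refine (Ideal.finite_factors h).subset fun v hv => ?_
  rw [Set.mem_ofPred_eq, Ideal.dvd_span_singleton]
  exact hv

theorem r5_qv_pow {p : ℕ} (hp : p.Prime) {v : HeightOneSpectrum (𝓞 K)} (hv : v ∈ above K p) :
    0 < Nat.log p (qv v) ∧ qv v = p ^ Nat.log p (qv v) := by
  have h1 : ¬ p.Coprime (CM27.qv K v) := by
    intro h
    obtain ⟨l, k, hl, hk, hq⟩ := isPrimePow_qv K v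
    have hl' : l.Prime := Nat.prime_iff.2 hl
    rw [← hq] at h
    have h2 : (l : 𝓞 K) ∈ v.asIdeal := by
      have h3 : ((Ideal.absNorm v.asIdeal : ℕ) : 𝓞 K) ∈ v.asIdeal := Ideal.absNorm_mem v.asIdeal
      rw [← qv_eq, ← hq] at h3
      push_cast at h3
      exact v.isPrime.mem_of_pow_mem _ h3
    have h4 : IsCoprime (p : ℤ) (l : ℤ) := by
      rw [Nat.isCoprime_iff_coprime]
      exact Nat.Coprime.coprime_dvd_right (dvd_pow_self l hk.ne') h
    obtain ⟨a, b, hab⟩ := h4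
    apply v.isPrime.ne_top
    rw [Ideal.eq_top_iff_one]
    have h5 : ((a : 𝓞 K)) * (p : 𝓞 K) + (b : 𝓞 K) * (l : 𝓞 K) = 1 := by
      exact_mod_cast congrArg (Int.cast : ℤ → 𝓞 K) hab
    rw [← h5]
    exact v.asIdeal.add_mem (v.asIdeal.mul_mem_left _ hv) (v.asIdeal.mul_mem_left _ h2)
  rw [r5_qv] at h1
  obtain ⟨l, k, hl, hk, hq⟩ := isPrimePow_qv K v
  rw [r5_qv] at hq
  have hl' : l.Prime := Nat.prime_iff.2 hl
  have h6 : p = l := by
    rw [← hq] at h1
    by_contra h7
    exact h1 (Nat.Coprime.pow_right _ ((Nat.coprime_primes hp hl').2 h7))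
  subst h6
  rw [← hq, Nat.log_pow hp.one_lt]
  exact ⟨hk, rfl⟩

theorem r5_constCoeff (v : HeightOneSpectrum (𝓞 K)) : (Pv W v).coeff 0 = 1 := by
  unfold Pv WeierstrassCurve.localPolynomial
  split_ifs <;> simp

theorem r5_fW {p : ℕ} (hp : p.Prime) {v : HeightOneSpectrum (𝓞 K)} (hv : v ∈ above K p) :
    loc p (fW K W v) * (((Pv W v).comp (X ^ Nat.log p (qv v)) : ℤ[X]) : PowerSeries ℤ) = 1 := by
  obtain ⟨hf, hq⟩ := r5_qv_pow hp hv
  have h1 : fW K W v = ofPowerSeries (p ^ Nat.log p (qv v))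
      (PowerSeries.invOfUnit ((Pv W v : ℤ[X]) : PowerSeries ℤ) 1) := by
    rw [← hq, ← r5_qv]
    rfl
  have h2 : fW K W v * ofPowerSeries (p ^ Nat.log p (qv v)) ((Pv W v : ℤ[X]) : PowerSeries ℤ) = 1 := by
    rw [h1, ← map_mul, PowerSeries.invOfUnit_mul, map_one]
    rw [← PowerSeries.coeff_zero_eq_constantCoeff, Polynomial.coeff_coe, r5_constCoeff,
      Units.val_one]
  have h3 := congrArg (loc p) h2
  rwa [loc_mul hp, loc_one hp, r5_loc_poly hp hf] at h3

theorem r5_loc {p : ℕ} (hp : p.Prime) : loc p W.LFunction * ((Pp W p : ℤ[X]) : PowerSeries ℤ) = 1 := by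
  have hfin := r5_finite (K := K) hp
  rw [loc_LFunctionW K W hp hfin.toFinset (fun v hv => by rw [Set.Finite.mem_toFinset]; exact hv)]
  have h1 : Pp W p = ∏ v ∈ hfin.toFinset, (Pv W v).comp (X ^ Nat.log p (qv v)) := by
    unfold Pp
    rw [finprod_mem_eq_finite_toFinset_prod _ hfin]
  have h2 : ((Pp W p : ℤ[X]) : PowerSeries ℤ) =
      ∏ v ∈ hfin.toFinset, (((Pv W v).comp (X ^ Nat.log p (qv v)) : ℤ[X]) : PowerSeries ℤ) := by
    rw [h1]
    exact map_prod (Polynomial.coeToPowerSeries.ringHom : ℤ[X] →+* PowerSeries ℤ) _ _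
  rw [h2, ← Finset.prod_mul_distrib]
  apply Finset.prod_eq_one
  intro v hv
  exact r5_fW W hp ((Set.Finite.mem_toFinset hfin).1 hv)

/-- evaluation of the local series -/
theorem r5_local {p : ℕ} (hp : p.Prime) (s : ℂ)
    (hs : LSeriesSummable (fun n => (W.LFunction n : ℂ)) s) :
    (∑' e : ℕ, LSeries.term (fun n => (W.LFunction n : ℂ)) s (p ^ e)) *
      aeval ((p : ℂ) ^ (-s)) (Pp W p) = 1 := by
  set x : ℂ := (p : ℂ) ^ (-s) with hx
  have hterm : ∀ e : ℕ, LSeries.term (fun n => (W.LFunction n : ℂ)) s (p ^ e) =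
      (W.LFunction (p ^ e) : ℂ) * x ^ e := by
    intro e
    rw [LSeries.term_of_ne_zero (pow_ne_zero _ hp.ne_zero), div_eq_mul_inv, ← Complex.cpow_neg, hx]
    congr 1
    push_cast
    rw [← Complex.natCast_cpow_natCast_mul, Complex.cpow_nat_mul]
  have hsum : Summable fun e : ℕ => ‖(W.LFunction (p ^ e) : ℂ) * x ^ e‖ := by
    have h1 : Summable fun n => ‖LSeries.term (fun n => (W.LFunction n : ℂ)) s n‖ := hs.norm
    have h2 := h1.comp_injective (Nat.pow_right_injective hp.two_le)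
    refine h2.congr fun e => ?_
    change ‖LSeries.term (fun n => (W.LFunction n : ℂ)) s (p ^ e)‖ = _
    rw [hterm]
  have hfs : ∀ i ∉ Finset.range ((Pp W p).natDegree + 1), ((Pp W p).coeff i : ℂ) * x ^ i = 0 := by
    intro i hi
    rw [Finset.mem_range, not_lt] at hi
    rw [Polynomial.coeff_eq_zero_of_natDegree_lt (by omega)]
    simp
  have hQ : aeval x (Pp W p) = ∑' i : ℕ, ((Pp W p).coeff i : ℂ) * x ^ i := by
    rw [tsum_eq_sum hfs, Polynomial.aeval_eq_sum_range]
    refine Finset.sum_congr rfl fun i _ => ?_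
    rw [zsmul_eq_mul]
  have hQs : Summable fun i : ℕ => ‖((Pp W p).coeff i : ℂ) * x ^ i‖ := by
    refine summable_of_ne_finset_zero (s := Finset.range ((Pp W p).natDegree + 1)) fun i hi => ?_
    rw [hfs i hi, norm_zero]
  simp only [hterm]
  rw [hQ, tsum_mul_tsum_eq_tsum_sum_antidiagonal_of_summable_norm hsum hQs]
  have hloc := r5_loc W hp
  have key : ∀ n : ℕ, ∑ kl ∈ Finset.HasAntidiagonal.antidiagonal n,
      (W.LFunction (p ^ kl.1) : ℂ) * x ^ kl.1 * (((Pp W p).coeff kl.2 : ℂ) * x ^ kl.2) =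
      if n = 0 then 1 else 0 := by
    intro n
    have h1 := congrArg (PowerSeries.coeff n) hloc
    rw [PowerSeries.coeff_mul, PowerSeries.coeff_one] at h1
    have h2 := congrArg (Int.cast : ℤ → ℂ) h1
    have h3 : ∑ kl ∈ Finset.HasAntidiagonal.antidiagonal n,
        (W.LFunction (p ^ kl.1) : ℂ) * x ^ kl.1 * (((Pp W p).coeff kl.2 : ℂ) * x ^ kl.2) =
        x ^ n * ∑ kl ∈ Finset.HasAntidiagonal.antidiagonal n,
          (W.LFunction (p ^ kl.1) : ℂ) * ((Pp W p).coeff kl.2 : ℂ) := by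
      rw [Finset.mul_sum]
      refine Finset.sum_congr rfl fun kl hkl => ?_
      rw [Finset.HasAntidiagonal.mem_antidiagonal] at hkl
      rw [← hkl, pow_add]
      ring
    rw [h3]
    have h4 : ∑ kl ∈ Finset.HasAntidiagonal.antidiagonal n,
          (W.LFunction (p ^ kl.1) : ℂ) * ((Pp W p).coeff kl.2 : ℂ) = if n = 0 then 1 else 0 := by
      rw [Int.cast_sum] at h2
      simp only [coeff_loc, Polynomial.coeff_coe] at h2
      push_cast at h2
      exact h2
    rw [h4]
    split_ifs with h5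
    · rw [h5, pow_zero, mul_one]
    · rw [mul_zero]
  simp only [key]
  rw [tsum_eq_single 0 (fun n hn => if_neg hn), if_pos rfl]

theorem LS_eq (S : Finset ℕ)
    (hS : ∀ p ∈ S, p.Prime) (s : ℂ)
    (hs : LSeriesSummable (fun n => (W.LFunction n : ℂ)) s) :
    Multipliable (fun p : {p : ℕ // p.Prime ∧ p ∉ S} => (aeval ((p : ℂ) ^ (-s)) (Pp W p))⁻¹) ∧
      LS W S s = W.LSeries s * ∏ p ∈ S, aeval ((p : ℂ) ^ (-s)) (Pp W p) := by
  have hmul := isMultiplicative_LFunctionW K W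
  set f : ℕ → ℂ := LSeries.term (fun n => (W.LFunction n : ℂ)) s with hf
  have hf1 : f 1 = 1 := by
    rw [hf, LSeries.term_of_ne_zero one_ne_zero, hmul.1]
    simp
  have hfm : ∀ {a b : ℕ}, a.Coprime b → f (a * b) = f a * f b := by
    intro a b hab
    rcases eq_or_ne a 0 with rfl | ha
    · simp [hf]
    rcases eq_or_ne b 0 with rfl | hb
    · simp [hf]
    rw [hf, LSeries.term_of_ne_zero (mul_ne_zero ha hb), LSeries.term_of_ne_zero ha,
      LSeries.term_of_ne_zero hb, hmul.2 hab]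
    push_cast
    rw [Complex.natCast_mul_natCast_cpow]
    field_simp
  have h0 : f 0 = 0 := by rw [hf]; simp
  have hP := EulerProduct.eulerProduct_hasProd_mulIndicator hf1 hfm hs.norm h0
  set Q : ℕ → ℂ := fun p => aeval ((p : ℂ) ^ (-s)) (Pp W p) with hQ
  have hk : HasProd (fun p : ℕ => if p ∈ S then Q p else 1) (∏ p ∈ S, Q p) := by
    have h1 := hasProd_prod_of_ne_finset_one (f := fun p : ℕ => if p ∈ S then Q p else 1)
      (s := S) (L := SummationFilter.unconditional ℕ) (fun p hp => if_neg hp)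
    rwa [Finset.prod_congr rfl (fun p hp => if_pos hp)] at h1
  have hh := hP.mul hk
  have hcongr : (fun p : ℕ => Set.mulIndicator {p | Nat.Prime p} (fun p ↦ ∑' e, f (p ^ e)) p *
      (if p ∈ S then Q p else 1)) =
      Set.mulIndicator {p : ℕ | p.Prime ∧ p ∉ S} (fun p => (Q p)⁻¹) := by
    funext p
    by_cases hp : p.Prime
    · have h2 := r5_local W hp s hs
      have h3 : ∑' e, f (p ^ e) = (Q p)⁻¹ := eq_inv_of_mul_eq_one_left h2
      rw [Set.mulIndicator_of_mem (show p ∈ {p | Nat.Prime p} from hp)]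
      by_cases hpS : p ∈ S
      · rw [if_pos hpS, Set.mulIndicator_of_notMem (fun h => h.2 hpS)]
        exact h2
      · rw [if_neg hpS, mul_one, Set.mulIndicator_of_mem (show p ∈ {p : ℕ | p.Prime ∧ p ∉ S} from
          ⟨hp, hpS⟩), h3]
    · rw [Set.mulIndicator_of_notMem (show p ∉ {p | Nat.Prime p} from hp),
        if_neg (fun h => hp (hS p h)), Set.mulIndicator_of_notMem (fun h => hp h.1), mul_one]
  rw [hcongr] at hh
  have hsub : HasProd (fun p : {p : ℕ // p.Prime ∧ p ∉ S} => (Q p)⁻¹)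
      ((∑' n, f n) * ∏ p ∈ S, Q p) := by
    have h4 := (hasProd_subtype_iff_mulIndicator (f := fun p => (Q p)⁻¹)
      (s := {p : ℕ | p.Prime ∧ p ∉ S})).2 hh
    exact h4
  refine ⟨hsub.multipliable, ?_⟩
  have h5 : W.LSeries s = ∑' n, f n := rfl
  rw [h5, ← hsub.tprod_eq]
  rfl

theorem differentiable_Pp (p : ℕ) (hp : p.Prime) :
    Differentiable ℂ (fun s : ℂ => aeval ((p : ℂ) ^ (-s)) (Pp W p)) := by
  have h0 : (p : ℂ) ≠ 0 := Nat.cast_ne_zero.2 hp.ne_zero
  have h1 : Differentiable ℂ (fun s : ℂ => (p : ℂ) ^ (-s)) := by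
    intro s
    exact (differentiableAt_id.neg).const_cpow (Or.inl h0)
  exact ((Pp W p).differentiable_aeval).comp h1

/-- value at 1 -/
theorem Pp_one (p : ℕ)
    (hp : p.Prime) : aeval ((p : ℂ) ^ (-1 : ℂ)) (Pp W p) =
      ∏ᶠ v ∈ above K p, aeval ((qv v : ℂ)⁻¹) (Pv W v) := by
  have hfin := r5_finite (K := K) hp
  unfold Pp
  rw [finprod_mem_eq_finite_toFinset_prod _ hfin, finprod_mem_eq_finite_toFinset_prod _ hfin,
    map_prod]
  refine Finset.prod_congr rfl fun v hv => ?_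
  obtain ⟨hf, hq⟩ := r5_qv_pow hp ((Set.Finite.mem_toFinset hfin).1 hv)
  rw [Polynomial.aeval_comp, map_pow, Polynomial.aeval_X, Complex.cpow_neg_one, inv_pow]
  congr 2
  conv_rhs => rw [hq]
  push_cast
  rfl

end

end WR
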