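import Pool.Agent.MP_dfae13_nt.R.Basic
import Pool.Agent.MP_ae0bd0_nt.CM.C3

/-!
# [RES-6] the nonsingular points of singular Weierstrass curves over finite fields
-/

set_option autoImplicit false

open NumberField IsDedekindDomain WeierstrassCurve.Affine Polynomial
open scoped Classical

namespace WR

section sing

variable {k : Type} [Field k] (W : WeierstrassCurve k)

/-- `(x, y)` is a singular point. -/
structure R6Sing (x y : k) : Prop where
  F : y ^ 2 + W.a₁ * x * y + W.a₃ * y - (x ^ 3 + W.a₂ * x ^ 2 + W.a₄ * x + W.a₆) = 0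
  Fx : W.a₁ * y - (3 * x ^ 2 + 2 * W.a₂ * x + W.a₄) = 0
  Fy : 2 * y + W.a₁ * x + W.a₃ = 0

/-- when `2` is invertible, singular points come from the double roots of the cubic -/
theorem r6_of_double (h2 : (2 : k) ≠ 0) (x : k)
    (h : 4 * x ^ 3 + W.b₂ * x ^ 2 + 2 * W.b₄ * x + W.b₆ = 0)
    (h' : 6 * x ^ 2 + W.b₂ * x + W.b₄ = 0) : R6Sing W x (-(W.a₁ * x + W.a₃) / 2) := by
  have h4 : (4 : k) ≠ 0 := by
    have : (4 : k) = 2 * 2 := by norm_num
    rw [this]; exact mul_ne_zero h2 h2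
  set y := -(W.a₁ * x + W.a₃) / 2 with hy
  have hy2 : 2 * y + W.a₁ * x + W.a₃ = 0 := by
    rw [hy]; field_simp; ring
  simp only [WeierstrassCurve.b₂, WeierstrassCurve.b₄, WeierstrassCurve.b₆] at h h'
  refine ⟨?_, ?_, hy2⟩
  · apply (mul_eq_zero.1 (_ : (4 : k) * _ = 0)).resolve_left h4
    linear_combination (2 * y + W.a₁ * x + W.a₃) * hy2 - h
  · apply (mul_eq_zero.1 (_ : (2 : k) * _ = 0)).resolve_left h2
    linear_combination W.a₁ * hy2 - h'

theorem r6_node (hΔ : W.Δ = 0) (h4 : W.c₄ ≠ 0) :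
    ∃ y, R6Sing W ((18 * W.b₆ - W.b₂ * W.b₄) / W.c₄) y := by
  by_cases h2 : (2 : k) = 0
  · have hc4 : W.c₄ = W.a₁ ^ 4 := by
      simp only [WeierstrassCurve.c₄, WeierstrassCurve.b₂, WeierstrassCurve.b₄]
      linear_combination (4 * W.a₁ ^ 2 * W.a₂ + 8 * W.a₂ ^ 2 - 24 * W.a₄ - 12 * W.a₁ * W.a₃) * h2
    have ha1 : W.a₁ ≠ 0 := by
      intro h; apply h4; rw [hc4, h]; ring
    have hx : (18 * W.b₆ - W.b₂ * W.b₄) / W.c₄ = W.a₃ / W.a₁ := by
      rw [hc4, div_eq_div_iff (pow_ne_zero 4 ha1) ha1]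
      simp only [WeierstrassCurve.b₂, WeierstrassCurve.b₄, WeierstrassCurve.b₆]
      linear_combination (W.a₁ * (9 * (W.a₃ ^ 2 + 4 * W.a₆) - (W.a₁ ^ 2 * W.a₄ +
        2 * W.a₂ * W.a₁ * W.a₃ + 4 * W.a₂ * W.a₄)) - W.a₁ ^ 4 * W.a₃) * h2
    rw [hx]
    have hb2 : W.b₂ = W.a₁ ^ 2 := by
      simp only [WeierstrassCurve.b₂]
      linear_combination (2 * W.a₂) * h2
    have hb4 : W.b₄ = W.a₁ * W.a₃ := by
      simp only [WeierstrassCurve.b₄]
      linear_combination W.a₄ * h2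
    have hb6 : W.b₆ = W.a₃ ^ 2 := by
      simp only [WeierstrassCurve.b₆]
      linear_combination (2 * W.a₆) * h2
    have hb8 : W.b₈ = W.a₁ ^ 2 * W.a₆ + W.a₁ * W.a₃ * W.a₄ + W.a₂ * W.a₃ ^ 2 + W.a₄ ^ 2 := by
      simp only [WeierstrassCurve.b₈]
      linear_combination (2 * W.a₂ * W.a₆ - W.a₁ * W.a₃ * W.a₄ - W.a₄ ^ 2) * h2
    have hΔ' : W.a₁ ^ 4 * (W.a₁ ^ 2 * W.a₆ + W.a₁ * W.a₃ * W.a₄ + W.a₂ * W.a₃ ^ 2 + W.a₄ ^ 2) +
        W.a₃ ^ 4 + W.a₁ ^ 3 * W.a₃ ^ 3 = 0 := by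
      have hD := hΔ
      simp only [WeierstrassCurve.Δ] at hD
      rw [hb2, hb4, hb6, hb8] at hD
      linear_combination (-1 : k) * hD + (W.a₁ ^ 3 * W.a₃ ^ 3 - 13 * W.a₃ ^ 4) * h2
    refine ⟨((W.a₃ / W.a₁) ^ 2 + W.a₄) / W.a₁, ?_, ?_, ?_⟩
    · obtain ⟨x, hx'⟩ : ∃ x, x = W.a₃ / W.a₁ := ⟨_, rfl⟩
      obtain ⟨y, hy'⟩ : ∃ y, y = (x ^ 2 + W.a₄) / W.a₁ := ⟨_, rfl⟩
      have h3 : W.a₃ = W.a₁ * x := by rw [hx']; field_simp
      have hy : W.a₁ * y = x ^ 2 + W.a₄ := by rw [hy']; field_simp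
      rw [← hx', ← hy']
      rw [h3] at hΔ' ⊢
      apply (mul_eq_zero.1 (_ : W.a₁ ^ 6 * _ = 0)).resolve_left (pow_ne_zero 6 ha1)
      linear_combination hΔ' + (W.a₁ ^ 4 * (W.a₁ * y + x ^ 2 + W.a₄)) * hy +
        (W.a₁ ^ 4 * x ^ 2 * W.a₄ + W.a₁ ^ 7 * x * y -
          W.a₁ ^ 6 * (x ^ 3 + W.a₂ * x ^ 2 + W.a₄ * x + W.a₆)) * h2
    · have : W.a₁ * (((W.a₃ / W.a₁) ^ 2 + W.a₄) / W.a₁) = (W.a₃ / W.a₁) ^ 2 + W.a₄ := by
        field_simp
      rw [this]
      linear_combination (-(W.a₃ / W.a₁) ^ 2 - W.a₂ * (W.a₃ / W.a₁)) * h2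
    · have : W.a₁ * (W.a₃ / W.a₁) = W.a₃ := by field_simp
      rw [this]
      linear_combination (((W.a₃ / W.a₁) ^ 2 + W.a₄) / W.a₁ + W.a₃) * h2
  · set N := 18 * W.b₆ - W.b₂ * W.b₄ with hN
    have hc : W.c₄ = W.b₂ ^ 2 - 24 * W.b₄ := rfl
    have hb8 : 4 * W.b₈ = W.b₂ * W.b₆ - W.b₄ ^ 2 := W.b_relation
    have hD : -W.b₂ ^ 2 * W.b₈ - 8 * W.b₄ ^ 3 - 27 * W.b₆ ^ 2 + 9 * W.b₂ * W.b₄ * W.b₆ = 0 := hΔ
    refine ⟨_, r6_of_double W h2 _ ?_ ?_⟩
    · have key : 4 * N ^ 3 + W.b₂ * N ^ 2 * W.c₄ + 2 * W.b₄ * N * W.c₄ ^ 2 + W.b₆ * W.c₄ ^ 3 = 0 := by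
        rw [hN, hc]
        linear_combination (-4 * (12 * (18 * W.b₆ - W.b₂ * W.b₄) +
          W.b₂ * (W.b₂ ^ 2 - 24 * W.b₄))) * hD - ((12 * (18 * W.b₆ - W.b₂ * W.b₄) +
          W.b₂ * (W.b₂ ^ 2 - 24 * W.b₄)) * W.b₂ ^ 2) * hb8
      field_simp
      linear_combination key
    · have key : 6 * N ^ 2 + W.b₂ * N * W.c₄ + W.b₄ * W.c₄ ^ 2 = 0 := by
        rw [hN, hc]
        linear_combination (-72) * hD + (-18 * W.b₂ ^ 2) * hb8
      field_simp
      linear_combination key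

theorem r6_sqrt [Finite k] (h2 : (2 : k) = 0) (a : k) : ∃ x, x ^ 2 = a := by
  have hchar : CharP k 2 := CharTwo.of_one_ne_zero_of_two_eq_zero one_ne_zero h2
  have := Fintype.ofFinite k
  obtain ⟨x, hx⟩ := (FiniteField.isSquare_of_char_two (ringChar.eq_iff.2 hchar) a)
  exact ⟨x, by rw [hx, pow_two]⟩

theorem r6_cbrt [Finite k] (h3 : (3 : k) = 0) (a : k) : ∃ x, x ^ 3 = a := by
  have : CharP k 3 := by
    have h := CharP.exists k
    obtain ⟨p, hp⟩ := h
    have h1 : p ∣ 3 := (CharP.cast_eq_zero_iff k p 3).1 (by exact_mod_cast h3)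
    rcases (Nat.dvd_prime Nat.prime_three).1 h1 with h4 | h4
    · exact absurd h4 (CharP.char_ne_one k p)
    · rwa [h4] at hp
  have : ExpChar k 3 := ExpChar.prime Nat.prime_three
  obtain ⟨x, hx⟩ := surjective_frobenius k 3 a
  exact ⟨x, hx⟩

theorem r6_cusp [Finite k] (hΔ : W.Δ = 0) (h4 : W.c₄ = 0) : ∃ x y, R6Sing W x y := by
  have hc : W.b₂ ^ 2 - 24 * W.b₄ = 0 := h4
  have hb8 : 4 * W.b₈ = W.b₂ * W.b₆ - W.b₄ ^ 2 := W.b_relation
  have hD : -W.b₂ ^ 2 * W.b₈ - 8 * W.b₄ ^ 3 - 27 * W.b₆ ^ 2 + 9 * W.b₂ * W.b₄ * W.b₆ = 0 := hΔ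
  by_cases h2 : (2 : k) = 0
  · have ha1 : W.a₁ = 0 := by
      have h5 : W.b₂ ^ 2 = 0 := by linear_combination hc + 12 * W.b₄ * h2
      have h6 : W.b₂ = 0 := pow_eq_zero_iff (two_ne_zero) |>.1 h5
      simp only [WeierstrassCurve.b₂] at h6
      have h7 : W.a₁ ^ 2 = 0 := by linear_combination h6 - 2 * W.a₂ * h2
      exact pow_eq_zero_iff (two_ne_zero) |>.1 h7
    have ha3 : W.a₃ = 0 := by
      have hb2 : W.b₂ = 0 := by
        simp only [WeierstrassCurve.b₂, ha1]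
        linear_combination (2 * W.a₂) * h2
      rw [hb2] at hD
      have h5 : W.b₆ ^ 2 = 0 := by
        linear_combination (-1 : k) * hD - (13 * W.b₆ ^ 2 + 4 * W.b₄ ^ 3) * h2
      have h6 : W.b₆ = 0 := pow_eq_zero_iff (two_ne_zero) |>.1 h5
      simp only [WeierstrassCurve.b₆] at h6
      have h7 : W.a₃ ^ 2 = 0 := by linear_combination h6 - 2 * W.a₆ * h2
      exact pow_eq_zero_iff (two_ne_zero) |>.1 h7
    obtain ⟨x, hx⟩ := r6_sqrt h2 W.a₄
    obtain ⟨y, hy⟩ := r6_sqrt h2 (x ^ 3 + W.a₂ * x ^ 2 + W.a₄ * x + W.a₆)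
    refine ⟨x, y, ?_, ?_, ?_⟩
    · rw [ha1, ha3, hy]; ring
    · rw [ha1]
      linear_combination (-(2 * x ^ 2 + W.a₂ * x)) * h2 - hx + (x ^ 2) * h2 - W.a₄ * h2
    · rw [ha1, ha3]
      linear_combination y * h2
  · by_cases h3 : (3 : k) = 0
    · have h5 : W.b₂ = 0 := by
        have h5 : W.b₂ ^ 2 = 0 := by linear_combination hc + 8 * W.b₄ * h3
        exact pow_eq_zero_iff (two_ne_zero) |>.1 h5
      have h6 : W.b₄ = 0 := by
        rw [h5] at hD
        have h5 : W.b₄ ^ 3 = 0 := by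
          linear_combination hD + (3 * W.b₄ ^ 3 + 9 * W.b₆ ^ 2) * h3
        exact pow_eq_zero_iff (three_ne_zero) |>.1 h5
      obtain ⟨x, hx⟩ := r6_cbrt h3 (-W.b₆)
      refine ⟨x, _, r6_of_double W h2 x ?_ ?_⟩
      · rw [h5, h6]
        linear_combination hx + x ^ 3 * h3
      · rw [h5, h6]
        linear_combination (2 * x ^ 2) * h3
    · have h12 : (12 : k) ≠ 0 := by
        have : (12 : k) = 2 * 2 * 3 := by norm_num
        rw [this]
        exact mul_ne_zero (mul_ne_zero h2 h2) h3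
      have h432 : (432 : k) ≠ 0 := by
        have : (432 : k) = 12 * 12 * 3 := by norm_num
        rw [this]
        exact mul_ne_zero (mul_ne_zero h12 h12) h3
      have h1728 : (1728 : k) ≠ 0 := by
        have : (1728 : k) = 12 * 12 * 12 := by norm_num
        rw [this]
        exact mul_ne_zero (mul_ne_zero h12 h12) h12
      have hc6 : W.c₆ = 0 := by
        have h7 := W.c_relation
        rw [h4, hΔ] at h7
        have h8 : W.c₆ ^ 2 = 0 := by linear_combination h7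
        exact pow_eq_zero_iff (two_ne_zero) |>.1 h8
      simp only [WeierstrassCurve.c₆] at hc6
      refine ⟨-W.b₂ / 12, _, r6_of_double W h2 _ ?_ ?_⟩
      · apply (mul_eq_zero.1 (_ : (432 : k) * _ = 0)).resolve_left h432
        have e : -W.b₂ / 12 * 12 = -W.b₂ := by field_simp
        generalize -W.b₂ / 12 = x at e ⊢
        have hb2 : W.b₂ = -12 * x := by linear_combination e
        rw [hb2] at hc6 hc ⊢
        linear_combination (-2 : k) * hc6
      · apply (mul_eq_zero.1 (_ : (12 * 2 : k) * _ = 0)).resolve_left (mul_ne_zero h12 h2)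
        have e : -W.b₂ / 12 * 12 = -W.b₂ := by field_simp
        generalize -W.b₂ / 12 = x at e ⊢
        have hb2 : W.b₂ = -12 * x := by linear_combination e
        rw [hb2] at hc ⊢
        linear_combination (-1 : k) * hc

/-- For a singular point `(x₀, y₀)` the other points are parametrised by the slopes. -/
theorem r6_equiv (x₀ y₀ : k) (h : R6Sing W x₀ y₀) : Nonempty (W.toAffine.Point ≃
    Option {t : k // t ^ 2 + W.a₁ * t - (W.a₂ + 3 * x₀) ≠ 0}) := by
  -- the equation in the translated coordinates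
  have heq : ∀ x y : k, W.toAffine.Equation x y ↔
      (y - y₀) ^ 2 + W.a₁ * (x - x₀) * (y - y₀) = (x - x₀) ^ 3 + (W.a₂ + 3 * x₀) * (x - x₀) ^ 2 := by
    intro x y
    rw [WeierstrassCurve.Affine.equation_iff]
    have h1 := h.F
    have h2 := h.Fx
    have h3 := h.Fy
    constructor
    · intro h4
      linear_combination h4 - h1 - (x - x₀) * h2 - (y - y₀) * h3
    · intro h4
      linear_combination h4 + h1 + (x - x₀) * h2 + (y - y₀) * h3
  have hns : ∀ x y : k, W.toAffine.Nonsingular x y ↔ (W.toAffine.Equation x y ∧ x ≠ x₀) := by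
    intro x y
    rw [WeierstrassCurve.Affine.nonsingular_iff]
    constructor
    · rintro ⟨h1, h2⟩
      refine ⟨h1, ?_⟩
      rintro rfl
      have h3 := (heq x y).1 h1
      have h4 : y = y₀ := by
        have h5 : (y - y₀) ^ 2 = 0 := by linear_combination h3
        exact sub_eq_zero.1 (pow_eq_zero_iff (two_ne_zero) |>.1 h5)
      rw [h4] at h2
      rcases h2 with h2 | h2
      · exact h2 (by linear_combination h.Fx)
      · exact h2 (by linear_combination h.Fy)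
    · rintro ⟨h1, h2⟩
      refine ⟨h1, ?_⟩
      by_contra hcon
      push Not at hcon
      obtain ⟨h3, h4⟩ := hcon
      have h5 := (heq x y).1 h1
      apply h2
      have hX : x - x₀ ≠ 0 := sub_ne_zero.2 h2
      -- `F_x = F_y = 0`
      have e1 : 2 * (y - y₀) + W.a₁ * (x - x₀) = 0 := by linear_combination h4 - h.Fy
      have e2 : W.a₁ * (y - y₀) = 3 * (x - x₀) ^ 2 + 2 * (W.a₂ + 3 * x₀) * (x - x₀) := by
        linear_combination h3 - h.Fx
      have e3 : (x - x₀) ^ 3 = 0 := by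
        linear_combination (2 : k) * h5 - (y - y₀) * e1 - (x - x₀) * e2
      exact absurd (pow_eq_zero_iff (three_ne_zero) |>.1 e3) hX
  have hx : ∀ x y : k, W.toAffine.Nonsingular x y →
      ((y - y₀) / (x - x₀)) ^ 2 + W.a₁ * ((y - y₀) / (x - x₀)) - (W.a₂ + 3 * x₀) = x - x₀ := by
    intro x y hxy
    obtain ⟨h1, h2⟩ := (hns x y).1 hxy
    have hX : x - x₀ ≠ 0 := sub_ne_zero.2 h2
    have h5 := (heq x y).1 h1
    field_simp
    linear_combination h5
  have hinv : ∀ t : k, t ^ 2 + W.a₁ * t - (W.a₂ + 3 * x₀) ≠ 0 →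
      W.toAffine.Nonsingular (x₀ + (t ^ 2 + W.a₁ * t - (W.a₂ + 3 * x₀)))
        (y₀ + t * (t ^ 2 + W.a₁ * t - (W.a₂ + 3 * x₀))) := by
    intro t ht
    rw [hns, heq]
    refine ⟨by ring, ?_⟩
    intro h1
    exact ht (by linear_combination h1)
  refine ⟨{
    toFun := fun P => match P with
      | .zero => none
      | .some x y hxy => some ⟨(y - y₀) / (x - x₀), by
          rw [hx x y hxy]
          exact sub_ne_zero.2 ((hns x y).1 hxy).2⟩
    invFun := fun o => match o with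
      | none => .zero
      | some t => .some _ _ (hinv t.1 t.2)
    left_inv := ?_
    right_inv := ?_ }⟩
  · rintro (_ | ⟨x, y, hxy⟩)
    · rfl
    · have h1 := hx x y hxy
      have hX : x - x₀ ≠ 0 := sub_ne_zero.2 ((hns x y).1 hxy).2
      simp only [WeierstrassCurve.Affine.Point.some.injEq]
      rw [h1]
      refine ⟨by ring, ?_⟩
      field_simp
      ring
  · rintro (_ | ⟨t, ht⟩)
    · rfl
    · simp only [Option.some.injEq, Subtype.mk.injEq]
      rw [add_sub_cancel_left, add_sub_cancel_left, mul_div_cancel_right₀ _ ht]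

theorem r6_card [Finite k] (x₀ y₀ : k) (h : R6Sing W x₀ y₀) :
    Nat.card W.toAffine.Point + Nat.card {t : k // t ^ 2 + W.a₁ * t - (W.a₂ + 3 * x₀) = 0} =
      Nat.card k + 1 := by
  obtain ⟨e⟩ := r6_equiv W x₀ y₀ h
  have := Fintype.ofFinite k
  rw [Nat.card_congr e, Finite.card_option]
  have h1 : Nat.card {t : k // t ^ 2 + W.a₁ * t - (W.a₂ + 3 * x₀) = 0} +
      Nat.card {t : k // t ^ 2 + W.a₁ * t - (W.a₂ + 3 * x₀) ≠ 0} = Nat.card k := by
    rw [← Nat.card_sum]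
    exact Nat.card_congr (Equiv.sumCompl _)
  omega

/-- the tangent directions: cusp -/
theorem r6_roots_cusp [Finite k] (x₀ y₀ : k) (h : R6Sing W x₀ y₀) (h4 : W.c₄ = 0) :
    Nat.card {t : k // t ^ 2 + W.a₁ * t - (W.a₂ + 3 * x₀) = 0} = 1 := by
  -- the discriminant of the quadratic polynomial vanishes
  have hdisc : W.a₁ ^ 2 + 4 * (W.a₂ + 3 * x₀) = 0 := by
    have hc : W.b₂ ^ 2 - 24 * W.b₄ = 0 := h4
    have h1 : 6 * x₀ ^ 2 + W.b₂ * x₀ + W.b₄ = 0 := by
      simp only [WeierstrassCurve.b₂, WeierstrassCurve.b₄]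
      linear_combination W.a₁ * h.Fy - 2 * h.Fx
    have h2 : (W.a₁ ^ 2 + 4 * (W.a₂ + 3 * x₀)) ^ 2 = 0 := by
      have h3 : W.a₁ ^ 2 + 4 * (W.a₂ + 3 * x₀) = W.b₂ + 12 * x₀ := by
        simp only [WeierstrassCurve.b₂]
        ring
      rw [h3]
      linear_combination hc + 24 * h1
    exact pow_eq_zero_iff (two_ne_zero) |>.1 h2
  obtain ⟨t₀, ht₀⟩ : ∃ t₀ : k, 2 * t₀ + W.a₁ = 0 ∧ t₀ ^ 2 + W.a₁ * t₀ - (W.a₂ + 3 * x₀) = 0 := by
    by_cases h2 : (2 : k) = 0
    · obtain ⟨t, ht⟩ := r6_sqrt h2 (W.a₂ + 3 * x₀)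
      have ha1 : W.a₁ = 0 := by
        have : W.a₁ ^ 2 = 0 := by linear_combination hdisc - 2 * (W.a₂ + 3 * x₀) * h2
        exact pow_eq_zero_iff (two_ne_zero) |>.1 this
      refine ⟨t, ?_, ?_⟩
      · rw [ha1]; linear_combination t * h2
      · rw [ha1]; linear_combination ht
    · refine ⟨-W.a₁ / 2, by field_simp; ring, ?_⟩
      apply (mul_eq_zero.1 (_ : (2 * 2 : k) * _ = 0)).resolve_left (mul_ne_zero h2 h2)
      have e : -W.a₁ / 2 * 2 = -W.a₁ := by field_simp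
      generalize -W.a₁ / 2 = t at e ⊢
      have ha1 : W.a₁ = -2 * t := by linear_combination e
      rw [ha1] at hdisc ⊢
      linear_combination (-1 : k) * hdisc
  rw [Nat.card_eq_one_iff_unique]
  refine ⟨⟨?_⟩, ⟨⟨t₀, ht₀.2⟩⟩⟩
  have key : ∀ t : k, t ^ 2 + W.a₁ * t - (W.a₂ + 3 * x₀) = 0 → t = t₀ := by
    intro t ht
    have h1 : (t - t₀) ^ 2 = 0 := by
      linear_combination ht - ht₀.2 - (t - t₀) * ht₀.1
    exact sub_eq_zero.1 (pow_eq_zero_iff (two_ne_zero) |>.1 h1)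
  rintro ⟨t, ht⟩ ⟨t', ht'⟩
  exact Subtype.ext ((key t ht).trans (key t' ht').symm)

/-- a cuspidal cubic over a finite field has `q` nonsingular points -/
theorem card_cusp [Finite k] (hΔ : W.Δ = 0) (h4 : W.c₄ = 0) :
    Nat.card W.toAffine.Point = Nat.card k := by
  obtain ⟨x, y, h⟩ := r6_cusp W hΔ h4
  have h1 := r6_card W x y h
  rw [r6_roots_cusp W x y h h4] at h1
  omega

/-- the tangent directions: node -/
theorem r6_roots_node [Finite k] (x₀ y₀ : k) (h : R6Sing W x₀ y₀) (h4 : W.c₄ ≠ 0) :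
    Nat.card {t : k // t ^ 2 + W.a₁ * t - (W.a₂ + 3 * x₀) = 0} =
      if ∃ t : k, t ^ 2 + W.a₁ * t - (W.a₂ + 3 * x₀) = 0 then 2 else 0 := by
  have hdisc : W.a₁ ^ 2 + 4 * (W.a₂ + 3 * x₀) ≠ 0 := by
    intro h0
    apply h4
    have hc : W.c₄ = W.b₂ ^ 2 - 24 * W.b₄ := rfl
    have h1 : 6 * x₀ ^ 2 + W.b₂ * x₀ + W.b₄ = 0 := by
      simp only [WeierstrassCurve.b₂, WeierstrassCurve.b₄]
      linear_combination W.a₁ * h.Fy - 2 * h.Fx
    have h3 : W.b₂ + 12 * x₀ = 0 := by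
      simp only [WeierstrassCurve.b₂]
      linear_combination h0
    rw [hc]
    linear_combination (W.b₂ + 12 * x₀) * h3 - 24 * h1
  split_ifs with hex
  · obtain ⟨t, ht⟩ := hex
    have hne : t ≠ -W.a₁ - t := by
      intro h1
      apply hdisc
      linear_combination (-4 : k) * ht + (2 * t + W.a₁) * (by linear_combination h1 :
        2 * t + W.a₁ = 0)
    have ht' : (-W.a₁ - t) ^ 2 + W.a₁ * (-W.a₁ - t) - (W.a₂ + 3 * x₀) = 0 := by
      linear_combination ht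
    rw [Nat.card_eq_two_iff]
    refine ⟨⟨t, ht⟩, ⟨-W.a₁ - t, ht'⟩, ?_, ?_⟩
    · intro h1
      exact hne (congrArg Subtype.val h1)
    · rw [Set.eq_univ_iff_forall]
      rintro ⟨s, hs⟩
      have h1 : (s - t) * (s - (-W.a₁ - t)) = 0 := by linear_combination hs - ht
      rcases mul_eq_zero.1 h1 with h2 | h2
      · left; exact Subtype.ext (sub_eq_zero.1 h2)
      · right; exact Subtype.ext (sub_eq_zero.1 h2)
  · have : IsEmpty {t : k // t ^ 2 + W.a₁ * t - (W.a₂ + 3 * x₀) = 0} :=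
      ⟨fun t => hex ⟨t.1, t.2⟩⟩
    exact Nat.card_of_isEmpty

/-- a nodal cubic over a finite field has `q - 1` or `q + 1` nonsingular points -/
theorem card_node [Finite k] (hΔ : W.Δ = 0) (h4 : W.c₄ ≠ 0) :
    (Nat.card W.toAffine.Point : ℤ) = if (C W.c₄ * X ^ 2 + C (W.a₁ * W.c₄) * X -
      C (54 * W.b₆ - 3 * W.b₂ * W.b₄ + W.a₂ * W.c₄) : k[X]).Splits then
      (Nat.card k : ℤ) - 1 else (Nat.card k : ℤ) + 1 := by
  obtain ⟨y, h⟩ := r6_node W hΔ h4
  set x₀ := (18 * W.b₆ - W.b₂ * W.b₄) / W.c₄ with hx₀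
  have hx : W.c₄ * x₀ = 18 * W.b₆ - W.b₂ * W.b₄ := by rw [hx₀]; field_simp
  have h1 := r6_card W x₀ y h
  rw [r6_roots_node W x₀ y h h4] at h1
  have hdeg : (C W.c₄ * X ^ 2 + C (W.a₁ * W.c₄) * X -
      C (54 * W.b₆ - 3 * W.b₂ * W.b₄ + W.a₂ * W.c₄) : k[X]).degree = 2 := by
    rw [sub_eq_add_neg, ← C_neg]
    exact degree_quadratic h4
  have heval : ∀ t : k, (C W.c₄ * X ^ 2 + C (W.a₁ * W.c₄) * X -
      C (54 * W.b₆ - 3 * W.b₂ * W.b₄ + W.a₂ * W.c₄) : k[X]).eval t = 0 ↔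
      t ^ 2 + W.a₁ * t - (W.a₂ + 3 * x₀) = 0 := by
    intro t
    have h2 : (C W.c₄ * X ^ 2 + C (W.a₁ * W.c₄) * X -
      C (54 * W.b₆ - 3 * W.b₂ * W.b₄ + W.a₂ * W.c₄) : k[X]).eval t =
      W.c₄ * (t ^ 2 + W.a₁ * t - (W.a₂ + 3 * x₀)) := by
      simp only [eval_sub, eval_add, eval_mul, eval_C, eval_pow, eval_X]
      linear_combination (3 : k) * hx
    rw [h2, mul_eq_zero, or_iff_right h4]
  have hsp : (C W.c₄ * X ^ 2 + C (W.a₁ * W.c₄) * X -
      C (54 * W.b₆ - 3 * W.b₂ * W.b₄ + W.a₂ * W.c₄) : k[X]).Splits ↔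
      ∃ t : k, t ^ 2 + W.a₁ * t - (W.a₂ + 3 * x₀) = 0 := by
    constructor
    · intro hs
      obtain ⟨t, ht⟩ := hs.exists_eval_eq_zero (by rw [hdeg]; norm_num)
      exact ⟨t, (heval t).1 ht⟩
    · rintro ⟨t, ht⟩
      exact Splits.of_degree_eq_two hdeg ((heval t).2 ht)
  by_cases hs : ∃ t : k, t ^ 2 + W.a₁ * t - (W.a₂ + 3 * x₀) = 0
  · rw [if_pos (hsp.2 hs)]
    rw [if_pos hs] at h1
    omega
  · rw [if_neg (fun h => hs (hsp.1 h))]
    rw [if_neg hs] at h1
    omega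

end sing

section local_field

variable (A : Type) [CommRing A] [IsDomain A] [IsDiscreteValuationRing A] {F : Type} [Field F]
  [Algebra A F] [IsFractionRing A F] (V : WeierstrassCurve F) [V.IsMinimal A]

theorem r6_val_lt (a : A) : (IsDiscreteValuationRing.maximalIdeal A).valuation F
    (algebraMap A F a) < 1 ↔ IsLocalRing.residue A a = 0 := by
  rw [IsLocalRing.residue_eq_zero_iff]
  exact HeightOneSpectrum.valuation_lt_one_iff_mem _ _

theorem r6_val_le (a : A) : (IsDiscreteValuationRing.maximalIdeal A).valuation F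
    (algebraMap A F a) ≤ 1 := HeightOneSpectrum.valuation_le_one _ _

theorem r6_mult_iff : V.HasMultiplicativeReduction A ↔
    (V.reduction A).Δ = 0 ∧ (V.reduction A).c₄ ≠ 0 := by
  have hΔ : (V.reduction A).Δ = IsLocalRing.residue A (V.integralModel A).Δ :=
    WeierstrassCurve.map_Δ _ _
  have hc : (V.reduction A).c₄ = IsLocalRing.residue A (V.integralModel A).c₄ :=
    WeierstrassCurve.map_c₄ _ _
  rw [hΔ, hc, WeierstrassCurve.hasMultiplicativeReduction_iff,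
    ← WeierstrassCurve.integralModel_Δ_eq A V, ← WeierstrassCurve.integralModel_c₄_eq A V,
    r6_val_lt, Ne, ← r6_val_lt (F := F) A (V.integralModel A).c₄]
  have h1 := r6_val_le (F := F) A (V.integralModel A).c₄
  constructor
  · rintro ⟨-, h2, h3⟩
    exact ⟨h2, by rw [h3]; exact lt_irrefl _⟩
  · rintro ⟨h2, h3⟩
    exact ⟨inferInstance, h2, le_antisymm h1 (not_lt.1 h3)⟩

theorem r6_split_iff : V.HasSplitMultiplicativeReduction A ↔
    V.HasMultiplicativeReduction A ∧ (C (V.reduction A).c₄ * X ^ 2 +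
      C ((V.reduction A).a₁ * (V.reduction A).c₄) * X -
      C (54 * (V.reduction A).b₆ - 3 * (V.reduction A).b₂ * (V.reduction A).b₄ +
        (V.reduction A).a₂ * (V.reduction A).c₄) : (IsLocalRing.ResidueField A)[X]).Splits := by
  rw [WeierstrassCurve.hasSplitMultiplicativeReduction_iff]
  obtain ⟨I, hI⟩ : ∃ I, I = V.integralModel A := ⟨_, rfl⟩
  have hred : V.reduction A = I.map (IsLocalRing.residue A) := by rw [hI]; rfl
  rw [hred]
  have key : (.map (algebraMap A (IsLocalRing.ResidueField A)) <|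
      C I.c₄ * X ^ 2 + C (I.a₁ * I.c₄) * X -
      C (54 * I.b₆ - 3 * I.b₂ * I.b₄ + I.a₂ * I.c₄) : (IsLocalRing.ResidueField A)[X]) =
      (C (I.map (IsLocalRing.residue A)).c₄ * X ^ 2 +
      C ((I.map (IsLocalRing.residue A)).a₁ * (I.map (IsLocalRing.residue A)).c₄) * X -
      C (54 * (I.map (IsLocalRing.residue A)).b₆ - 3 * (I.map (IsLocalRing.residue A)).b₂ *
        (I.map (IsLocalRing.residue A)).b₄ + (I.map (IsLocalRing.residue A)).a₂ *
        (I.map (IsLocalRing.residue A)).c₄) : (IsLocalRing.ResidueField A)[X]) := by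
    rw [WeierstrassCurve.map_c₄, WeierstrassCurve.map_b₆, WeierstrassCurve.map_b₂,
      WeierstrassCurve.map_b₄, WeierstrassCurve.map_a₁, WeierstrassCurve.map_a₂,
      IsLocalRing.ResidueField.algebraMap_eq]
    simp only [Polynomial.map_sub, Polynomial.map_add, Polynomial.map_mul, Polynomial.map_pow,
      Polynomial.map_C, Polynomial.map_X, map_mul, map_sub, map_add, map_ofNat,
      Polynomial.map_ofNat]
  constructor
  · rintro ⟨hm, hs⟩
    refine ⟨hm, ?_⟩
    rw [← key, hI]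
    exact hs
  · rintro ⟨hm, hs⟩
    refine ⟨hm, ?_⟩
    rw [← key, hI] at hs
    exact hs

theorem r6_local [Finite (IsLocalRing.ResidueField A)] (q : ℕ)
    (hq : Nat.card (IsLocalRing.ResidueField A) = q) (hq0 : q ≠ 0) :
    (Nat.card (V.reduction A).toAffine.Point : ℂ) = q * aeval ((q : ℂ)⁻¹)
      (if V.HasGoodReduction A then 1 - C ((q : ℤ) + 1 - (Nat.card (V.reduction A).toAffine.Point)) * X
        + C (q : ℤ) * X ^ 2
      else if V.HasSplitMultiplicativeReduction A then 1 - X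
      else if V.HasMultiplicativeReduction A then 1 + X
      else 1 : ℤ[X]) := by
  have hqC : (q : ℂ) ≠ 0 := by exact_mod_cast hq0
  by_cases hgood : V.HasGoodReduction A
  · rw [if_pos hgood]
    rw [map_add, map_sub, map_one, map_mul, map_mul, map_pow, aeval_X, aeval_C, aeval_C]
    simp only [algebraMap_int_eq, eq_intCast]
    push_cast
    field_simp
    ring
  · rw [if_neg hgood]
    have hΔ : (V.reduction A).Δ = 0 := by
      by_contra h0
      apply hgood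
      rw [WeierstrassCurve.hasGoodReduction_iff_isElliptic_reduction,
        WeierstrassCurve.isElliptic_iff]
      exact isUnit_iff_ne_zero.2 h0
    by_cases hm : V.HasMultiplicativeReduction A
    · have h1 := card_node _ hΔ ((r6_mult_iff A V).1 hm).2
      rw [hq] at h1
      by_cases hs : V.HasSplitMultiplicativeReduction A
      · rw [if_pos hs]
        rw [if_pos ((r6_split_iff A V).1 hs).2] at h1
        have h2 : (Nat.card (V.reduction A).toAffine.Point : ℂ) = q - 1 := by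
          exact_mod_cast congrArg (fun z : ℤ => (z : ℂ)) h1
        rw [h2]
        simp only [map_sub, map_one, aeval_X]
        field_simp
      · rw [if_neg hs, if_pos hm]
        rw [if_neg (fun h => hs ((r6_split_iff A V).2 ⟨hm, h⟩))] at h1
        have h2 : (Nat.card (V.reduction A).toAffine.Point : ℂ) = q + 1 := by
          exact_mod_cast congrArg (fun z : ℤ => (z : ℂ)) h1
        rw [h2]
        simp only [map_add, map_one, aeval_X]
        field_simp
    · have hs : ¬ V.HasSplitMultiplicativeReduction A :=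
        fun h => hm h.toHasMultiplicativeReduction
      rw [if_neg hs, if_neg hm, map_one, mul_one]
      have h4 : (V.reduction A).c₄ = 0 := by
        by_contra h0
        exact hm ((r6_mult_iff A V).2 ⟨hΔ, h0⟩)
      rw [card_cusp _ hΔ h4, hq]

end local_field

section number_field

variable {K : Type} [Field K] [NumberField K] (W : WeierstrassCurve K)

theorem qv_eq (v : HeightOneSpectrum (𝓞 K)) :
    Nat.card (IsLocalRing.ResidueField (v.adicCompletionIntegers K)) = qv v :=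
  (CM27.card_residue K v).1

theorem qv_ne_zero (v : HeightOneSpectrum (𝓞 K)) : qv v ≠ 0 := by
  have hfin : Finite (𝓞 K ⧸ v.asIdeal) := Ideal.finiteQuotientOfFreeOfNeBot v.asIdeal v.ne_bot
  exact Nat.card_pos.ne'

/-- The number of nonsingular points of the reduction is `q_v P_v(1 / q_v)`. -/
theorem card_ns (v : HeightOneSpectrum (𝓞 K)) :
    (Nat.card (((W.baseChange (v.adicCompletion K)).minimal
      (v.adicCompletionIntegers K)).reduction (v.adicCompletionIntegers K)).toAffine.Point : ℂ) =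
      qv v * aeval ((qv v : ℂ)⁻¹) (Pv W v) := by
  have hfin := (CM27.card_residue K v).2
  have h := r6_local (v.adicCompletionIntegers K) ((W.baseChange (v.adicCompletion K)).minimal
      (v.adicCompletionIntegers K)) (qv v) (qv_eq v) (qv_ne_zero v)
  rw [h]
  unfold Pv WeierstrassCurve.localPolynomial
  rw [qv_eq]

theorem Vv_eq (v : HeightOneSpectrum (𝓞 K)) :
    (Vv W v : ℂ) = SBSD.tam W v * aeval ((qv v : ℂ)⁻¹) (Pv W v) := by
  have hq : (qv v : ℂ) ≠ 0 := by exact_mod_cast qv_ne_zero v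
  have h := card_ns W v
  unfold Vv
  push_cast
  rw [h]
  field_simp

end number_field

end WR
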