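import Pool.Agent.MP_dfae13_nt.R.FinalDefs
import Pool.Agent.MP_dfae13_nt.R.R4b
import Pool.Agent.MP_dfae13_nt.R.R5
import Pool.Agent.MP_dfae13_nt.R.R6
import Pool.Agent.MP_dfae13_nt.T.FinalDefs
import Pool.Agent.MP_9ab903_nt.Assembly

/-!
# The Birch and Swinnerton-Dyer formula for `W / K` and for `Res_{K/ℚ} W`
-/

set_option autoImplicit false

open NumberField IsDedekindDomain
open scoped Classical

namespace WR

variable {K : Type} [Field K] [NumberField K] (W : WeierstrassCurve K)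

theorem fin_above_finite (p : ℕ) (hp : p ≠ 0) : (above K p).Finite := by
  have h : (Ideal.span {(p : 𝓞 K)}) ≠ ⊥ := by
    rw [Ne, Ideal.span_singleton_eq_bot]
    exact_mod_cast hp
  refine (Ideal.finite_factors h).subset ?_
  intro v hv
  exact (Ideal.dvd_span_singleton).2 hv

theorem fin_mem_unique {p q : ℕ} (hp : p.Prime) (hq : q.Prime) {v : HeightOneSpectrum (𝓞 K)}
    (h1 : v ∈ above K p) (h2 : v ∈ above K q) : p = q := by
  by_contra hne
  have hc : Nat.Coprime p q := (Nat.coprime_primes hp hq).2 hne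
  have h3 : IsCoprime (p : ℤ) (q : ℤ) := Nat.isCoprime_iff_coprime.2 hc
  obtain ⟨a, b, hab⟩ := h3
  have h4 : (1 : 𝓞 K) ∈ v.asIdeal := by
    have h5 : (1 : 𝓞 K) = (a : 𝓞 K) * (p : 𝓞 K) + (b : 𝓞 K) * (q : 𝓞 K) := by
      exact_mod_cast congrArg (fun z : ℤ => (z : 𝓞 K)) hab.symm
    rw [h5]
    exact Ideal.add_mem _ (Ideal.mul_mem_left _ _ h1) (Ideal.mul_mem_left _ _ h2)
  exact v.isPrime.ne_top ((Ideal.eq_top_iff_one _).2 h4)

theorem fin_exists_prime (v : HeightOneSpectrum (𝓞 K)) : ∃ p : ℕ, p.Prime ∧ v ∈ above K p := by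
  have h1 : (Nat.card (𝓞 K ⧸ v.asIdeal) : 𝓞 K) ∈ v.asIdeal := by
    have h2 := Ideal.absNorm_mem v.asIdeal
    rwa [Ideal.absNorm_apply, Submodule.cardQuot_apply] at h2
  have hfin : Finite (𝓞 K ⧸ v.asIdeal) := Ideal.finiteQuotientOfFreeOfNeBot v.asIdeal v.ne_bot
  have h0 : Nat.card (𝓞 K ⧸ v.asIdeal) ≠ 0 := Nat.card_pos.ne'
  have key : ∀ n : ℕ, n ≠ 0 → (n : 𝓞 K) ∈ v.asIdeal → ∃ p : ℕ, p.Prime ∧ v ∈ above K p := by
    intro n
    induction n using Nat.recOnMul with
    | zero => intro h; exact absurd rfl h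
    | one =>
      intro _ h
      rw [Nat.cast_one] at h
      exact absurd ((Ideal.eq_top_iff_one _).2 h) v.isPrime.ne_top
    | prime p hp => intro _ h; exact ⟨p, hp, h⟩
    | mul a b ha hb =>
      intro hab h
      rw [Nat.cast_mul] at h
      rcases v.isPrime.mem_or_mem h with h3 | h3
      · exact ha (left_ne_zero_of_mul hab) h3
      · exact hb (right_ne_zero_of_mul hab) h3
  exact key _ h0 h1

/-- The product over the places above the primes of `S`. -/
theorem fin_prod {M : Type*} [CommMonoid M] (S : Finset ℕ) (hS : ∀ p ∈ S, p.Prime)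
    (f : HeightOneSpectrum (𝓞 K) → M)
    (hf : ∀ v, (∀ p ∈ S, v ∉ above K p) → f v = 1) :
    ∏ p ∈ S, ∏ᶠ v ∈ above K p, f v = ∏ᶠ v : HeightOneSpectrum (𝓞 K), f v := by
  have h1 : ∀ p ∈ S, ∏ᶠ v ∈ above K p, f v =
      ∏ v ∈ (if h : p ≠ 0 then (fin_above_finite (K := K) p h).toFinset else ∅), f v := by
    intro p hp
    rw [dif_pos (hS p hp).ne_zero]
    exact finprod_mem_eq_finite_toFinset_prod _ _
  rw [Finset.prod_congr rfl h1, ← Finset.prod_biUnion]
  · rw [finprod_eq_prod_of_mulSupport_subset f]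
    intro v hv
    rw [Finset.coe_biUnion, Set.mem_iUnion₂]
    by_contra hcon
    push Not at hcon
    apply hv
    apply hf
    intro p hp hvp
    apply hcon p hp
    rw [dif_pos (hS p hp).ne_zero, Set.Finite.coe_toFinset]
    exact hvp
  · intro p hp q hq hne
    rw [Function.onFun, Finset.disjoint_left]
    intro v hv1 hv2
    rw [dif_pos (hS p hp).ne_zero, Set.Finite.mem_toFinset] at hv1
    rw [dif_pos (hS q hq).ne_zero, Set.Finite.mem_toFinset] at hv2
    exact hne (fin_mem_unique (hS p hp) (hS q hq) hv1 hv2)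

/-- The Tamagawa number at a place of good reduction is `1`. -/
theorem fin_tam_good (v : HeightOneSpectrum (𝓞 K))
    (h : ((W.baseChange (v.adicCompletion K)).minimal (v.adicCompletionIntegers K)).HasGoodReduction
      (v.adicCompletionIntegers K)) : SBSD.tam W v = 1 :=
  SBSD.tamagawa_eq_one _ _ (SBSD.nonsingular_of_good _ _ h)

/-- A Weierstrass curve over a finite field has finitely many points. -/
theorem fin_finite_point (k : Type) [Field k] [Finite k] (V : WeierstrassCurve k) :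
    Finite V.toAffine.Point := by
  refine Finite.of_injective (β := Option (k × k)) (fun P => match P with
    | .zero => none
    | .some x y _ => some (x, y)) ?_
  rintro (_ | ⟨x, y, h⟩) (_ | ⟨x', y', h'⟩) hP
  · rfl
  · exact absurd hP (by simp)
  · exact absurd hP (by simp)
  · simp only [Option.some.injEq, Prod.mk.injEq] at hP
    obtain ⟨rfl, rfl⟩ := hP
    rfl

theorem fin_aeval_ne_zero (v : HeightOneSpectrum (𝓞 K)) (htam : SBSD.tam W v ≠ 0) :
    Polynomial.aeval ((qv v : ℂ)⁻¹) (Pv W v) ≠ 0 := by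
  have hres := (CM27.card_residue K v).2
  have hfinP := fin_finite_point (IsLocalRing.ResidueField (v.adicCompletionIntegers K))
    (((W.baseChange (v.adicCompletion K)).minimal
    (v.adicCompletionIntegers K)).reduction (v.adicCompletionIntegers K))
  have h1 := Vv_eq W v
  intro h0
  rw [h0, mul_zero] at h1
  have h2 : Vv W v = 0 := by exact_mod_cast h1
  unfold Vv at h2
  have hfin : Finite (𝓞 K ⧸ v.asIdeal) := Ideal.finiteQuotientOfFreeOfNeBot v.asIdeal v.ne_bot
  have hq : (qv v : ℝ) ≠ 0 := by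
    have : qv v ≠ 0 := Nat.card_pos.ne'
    exact_mod_cast this
  rw [div_eq_zero_iff, or_iff_left hq, mul_eq_zero] at h2
  rcases h2 with h2 | h2
  · exact htam (by exact_mod_cast h2)
  · have h3 : Nat.card (((W.baseChange (v.adicCompletion K)).minimal
      (v.adicCompletionIntegers K)).reduction (v.adicCompletionIntegers K)).toAffine.Point = 0 := by
      exact_mod_cast h2
    exact Nat.card_pos.ne' h3

theorem fin_finprod_ne_zero {α : Type*} (f : α → ℕ) (hf : (Function.mulSupport f).Finite)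
    (h : ∏ᶠ a, f a ≠ 0) (a : α) : f a ≠ 0 := by
  intro h0
  apply h
  rw [finprod_eq_prod_of_mulSupport_subset f (s := hf.toFinset) (by rw [Set.Finite.coe_toFinset])]
  refine Finset.prod_eq_zero (i := a) ?_ h0
  rw [Set.Finite.mem_toFinset, Function.mem_mulSupport, h0]
  norm_num

theorem fin_nat_cast_finprod {α : Type*} (f : α → ℕ) (hf : (Function.mulSupport f).Finite) :
    ((∏ᶠ a, f a : ℕ) : ℂ) = ∏ᶠ a, (f a : ℂ) :=
  MonoidHom.map_finprod (Nat.castRingHom ℂ : ℕ →* ℂ) hf

theorem fin_iso_card {G H : Type*} [AddCommGroup G] [AddCommGroup H] (e : G ≃+ H) :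
    Nat.card (AddCommGroup.torsion G) = Nat.card (AddCommGroup.torsion H) := by
  refine Nat.card_congr (e.toEquiv.subtypeEquiv fun x => ?_)
  change x ∈ AddCommGroup.torsion G ↔ e x ∈ AddCommGroup.torsion H
  rw [AddCommGroup.mem_torsion, AddCommGroup.mem_torsion]
  constructor
  · intro h
    exact AddMonoidHom.isOfFinAddOrder (e : G →+ H) h
  · intro h
    have h1 := AddMonoidHom.isOfFinAddOrder (e.symm : H →+ G) h
    have h2 : (e.symm : H →+ G) (e x) = x := e.symm_apply_apply x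
    rwa [h2] at h1

/-- **The bridge**: the statement for `W / K` implies the statement for `Res_{K/ℚ} W`. -/
theorem twoPart_res (h : SBSD.TwoPartFormula W) (S : Finset ℕ) (hS : IsBadSet W S) :
    TwoPartFormula W S := by
  obtain ⟨hell, hfin, L, ⟨hL1, hL2⟩, hord, hL3, hsha, q, hq1, hq2, hq3⟩ := h
  obtain ⟨e⟩ := rationalPoints_equiv W
  have hfinA : Finite (rationalPoints W) := Finite.of_equiv _ e.symm.toEquiv
  -- the product of the Euler factors
  set P : ℂ → ℂ := fun s => ∏ p ∈ S, Polynomial.aeval ((p : ℂ) ^ (-s)) (Pp W p) with hP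
  have hPd : Differentiable ℂ P := by
    rw [hP]
    exact Differentiable.fun_finsetProd fun p hp => differentiable_Pp W p (hS.1 p hp)
  -- the Tamagawa numbers outside of `S`
  have htamS : ∀ v : HeightOneSpectrum (𝓞 K), (∀ p ∈ S, v ∉ above K p) → SBSD.tam W v = 1 := by
    intro v hv
    obtain ⟨p, hp, hvp⟩ := fin_exists_prime v
    by_cases hpS : p ∈ S
    · exact absurd hvp (hv p hpS)
    · exact fin_tam_good W v ((hS.2 p hp hpS) v hvp).2
  have hsupp : (Function.mulSupport fun v : HeightOneSpectrum (𝓞 K) => SBSD.tam W v).Finite := by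
    have h1 : (⋃ p ∈ (S : Set ℕ), above K p).Finite :=
      S.finite_toSet.biUnion fun p hp => fin_above_finite p (hS.1 p hp).ne_zero
    refine h1.subset ?_
    intro v hv
    rw [Set.mem_iUnion₂]
    by_contra hcon
    push Not at hcon
    exact hv (htamS v fun p hp => hcon p hp)
  have htam0 : ∏ᶠ v : HeightOneSpectrum (𝓞 K), SBSD.tam W v ≠ 0 := by
    intro h0
    rw [SBSD.bsdQuotient, h0] at hq3
    apply hq1.ne'
    have h1 : (q : ℂ) = 0 := by rw [← hq3]; simp
    exact_mod_cast h1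
  have htam : ∀ v : HeightOneSpectrum (𝓞 K), SBSD.tam W v ≠ 0 :=
    fin_finprod_ne_zero _ hsupp htam0
  -- the value at `1`
  have hP1 : P 1 = ∏ p ∈ S, ∏ᶠ v ∈ above K p, Polynomial.aeval ((qv v : ℂ)⁻¹) (Pv W v) :=
    Finset.prod_congr rfl fun p hp => Pp_one W p (hS.1 p hp)
  have hP1' : P 1 ≠ 0 := by
    rw [hP1, Finset.prod_ne_zero_iff]
    intro p hp
    rw [finprod_mem_eq_finite_toFinset_prod _ (fin_above_finite p (hS.1 p hp).ne_zero),
      Finset.prod_ne_zero_iff]
    intro v _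
    exact fin_aeval_ne_zero W v (htam v)
  have hVbad : (Vbad W S : ℂ) = ((∏ᶠ v : HeightOneSpectrum (𝓞 K), SBSD.tam W v : ℕ) : ℂ) * P 1 := by
    rw [fin_nat_cast_finprod _ hsupp, ← fin_prod S hS.1 (fun v => (SBSD.tam W v : ℂ))
      (fun v hv => by rw [htamS v hv, Nat.cast_one]), hP1, ← Finset.prod_mul_distrib, Vbad]
    push_cast
    refine Finset.prod_congr rfl fun p hp => ?_
    have hfinp := fin_above_finite (K := K) p (hS.1 p hp).ne_zero
    rw [finprod_mem_eq_finite_toFinset_prod _ hfinp, finprod_mem_eq_finite_toFinset_prod _ hfinp,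
      finprod_mem_eq_finite_toFinset_prod _ hfinp, ← Finset.prod_mul_distrib]
    push_cast
    exact Finset.prod_congr rfl fun v _ => Vv_eq W v
  have hL' : Differentiable ℂ (fun s => L s * P s) := hL1.mul hPd
  have hne : L 1 * P 1 ≠ 0 := mul_ne_zero hL3 hP1'
  refine ⟨hfinA, fun s => L s * P s, ⟨hL', ?_⟩, ?_, hne, sha_trivial W hsha,
    q, hq1, hq2, ?_⟩
  · intro s hs
    obtain ⟨h1, h2⟩ := hL2 s hs
    obtain ⟨h3, h4⟩ := LS_eq W S hS.1 s h1
    refine ⟨h3, ?_⟩
    show L s * P s = LS W S s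
    rw [h4, h2]
  · have h1 : analyticOrderAt (fun s => L s * P s) 1 = 0 :=
      ((hL'.analyticAt 1).analyticOrderAt_eq_zero).2 hne
    rw [h1, CM27.finrank_finite]
    rfl
  · rw [← hq3, bsdQuotient, SBSD.bsdQuotient, hVbad, fin_iso_card e, Vinf]
    have hD : (√|(discr K : ℝ)| : ℝ) ≠ 0 := by
      rw [Real.sqrt_ne_zero (abs_nonneg _), abs_ne_zero]
      exact_mod_cast NumberField.discr_ne_zero K
    have hDC : ((√|(discr K : ℝ)| : ℝ) : ℂ) ≠ 0 := by exact_mod_cast hD
    have hper : (SBSD.period W : ℂ) ≠ 0 := by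
      intro h0
      rw [SBSD.bsdQuotient, h0] at hq3
      apply hq1.ne'
      have h1 : (q : ℂ) = 0 := by rw [← hq3]; simp
      exact_mod_cast h1
    have htamC : ((∏ᶠ v : HeightOneSpectrum (𝓞 K), SBSD.tam W v : ℕ) : ℂ) ≠ 0 := by
      exact_mod_cast htam0
    push_cast at htamC ⊢
    field_simp

end WR
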