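import Pool.Agent.MP_dfae13_nt.R.StDefs
import Pool.Agent.MP_dfae13_nt.R.Final

/-!
# The two forms of the definitions for Weil restrictions agree
-/

set_option autoImplicit false

open NumberField IsDedekindDomain
open scoped Classical

namespace WeilRes

section

variable {K : Type} [Field K] (W : WeierstrassCurve K)

abbrev CQ : Type := AlgebraicClosure ℚ

theorem br_map {L L' : Type} [Field L] [Field L'] (f : L →+* L') {τ : K →+* L}
    {τ' : K →+* L'} (h : f.comp τ = τ') (P : Pt W τ) : mapPt W f h P = WR.mapPt W f h P := rfl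

/-- the action, in a flexible form -/
theorem br_act {L : Type} [Field L] (s : L ≃+* L) (P : APt W L) (τ τ' : K →+* L)
    (h : (s : L →+* L).comp τ = τ') : act W s P τ' = mapPt W (s : L →+* L) h (P τ) := by
  subst h
  have h1 : (s.symm : L →+* L).comp ((s : L →+* L).comp τ) = τ := by
    ext x
    simp
  exact WR.r4c_emb W P h1 (s : L →+* L) (s : L →+* L) rfl
    (comp_symm s ((s : L →+* L).comp τ)) rfl

theorem br_flex (P : WR.APt W WR.QBar) (h : P ∈ WR.rationalPoints W) (g : WR.GQ)
    (τ τ' : K →+* WR.QBar) (hτ : (g : WR.QBar →+* WR.QBar).comp τ = τ') :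
    WR.mapPt W (g : WR.QBar →+* WR.QBar) hτ (P τ) = P τ' := by
  subst hτ
  exact h g τ

theorem br_rational (P : APt W CQ) : IsRational P ↔ P ∈ WR.rationalPoints W := by
  constructor
  · intro h g τ
    have h1 := congrFun (h g) (WR.act g τ)
    rw [br_act W g.toRingEquiv P τ (WR.act g τ) rfl] at h1
    exact h1
  · intro h g
    funext τ
    exact br_flex W P h g ((g.toRingEquiv.symm : CQ →+* CQ).comp τ) τ (comp_symm g.toRingEquiv τ)

theorem br_cocycle (c : Cochain W CQ) : IsCocycle c → c ∈ WR.cocycles W := by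
  rintro ⟨h1, h2⟩
  refine ⟨h1, fun g h τ => ?_⟩
  have h3 := congrFun (h2 g h) (WR.act g τ)
  have h4 : (c g + act W g.toRingEquiv (c h)) (WR.act g τ) =
      c g (WR.act g τ) + act W g.toRingEquiv (c h) (WR.act g τ) := rfl
  rw [h4, br_act W g.toRingEquiv (c h) τ (WR.act g τ) rfl] at h3
  exact h3

theorem br_trivialOver (L : Type) [Field L] [Algebra ℚ L] (c : Cochain W CQ) (h : TrivialOver L c) :
    WR.TrivialOver W L c := by
  intro j
  obtain ⟨Q, hQ⟩ := h j
  refine ⟨Q, fun σ g hσ τ => ?_⟩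
  have h1 := hQ σ g (fun x => congrArg (fun f : CQ →+* AlgebraicClosure L => f x) hσ) (WR.act g τ)
  have h2 : (act W σ.toRingEquiv Q - Q) (j.comp (WR.act g τ)) =
      act W σ.toRingEquiv Q (j.comp (WR.act g τ)) - Q (j.comp (WR.act g τ)) := rfl
  rw [h2, br_act W σ.toRingEquiv Q (j.comp τ) (j.comp (WR.act g τ)) (by
    rw [← RingHom.comp_assoc]
    exact congrArg (fun f : CQ →+* AlgebraicClosure L => f.comp τ) hσ)] at h1
  exact h1

theorem br_coboundary (c : Cochain W CQ) : IsCoboundary c ↔ c ∈ WR.coboundaries W := by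
  constructor
  · rintro ⟨P, hP⟩
    refine ⟨P, fun g τ => ?_⟩
    have h1 := congrFun (hP g) (WR.act g τ)
    have h2 : (act W g.toRingEquiv P - P) (WR.act g τ) =
      act W g.toRingEquiv P (WR.act g τ) - P (WR.act g τ) := rfl
    rw [h2, br_act W g.toRingEquiv P τ (WR.act g τ) rfl] at h1
    exact h1
  · rintro ⟨P, hP⟩
    refine ⟨P, fun g => ?_⟩
    funext τ
    have h2 := comp_symm g.toRingEquiv τ
    have h1 := WR.r4b_cob W hP g ((g.toRingEquiv.symm : CQ →+* CQ).comp τ) τ h2
    exact h1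

theorem br_locTrivial (c : Cochain W CQ) (h : IsLocTrivial c) : c ∈ WR.locTrivial W :=
  ⟨br_cocycle W c h.1, fun p _ => br_trivialOver W ℚ_[p] c (h.2.1 p), br_trivialOver W ℝ c h.2.2⟩

/-- the rational points are a subgroup -/
theorem br_rationalPoints (P : APt W CQ) : P ∈ rationalPoints W CQ ↔ P ∈ WR.rationalPoints W := by
  constructor
  · intro h
    refine AddSubgroup.closure_induction (p := fun P _ => P ∈ WR.rationalPoints W) ?_ ?_ ?_ ?_ h
    · intro x hx
      exact (br_rational W x).1 hx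
    · exact zero_mem _
    · intro x y _ _ hx hy
      exact add_mem hx hy
    · intro x _ hx
      exact neg_mem hx
  · intro h
    exact AddSubgroup.subset_closure ((br_rational W P).2 h)

theorem br_coboundaries (c : Cochain W CQ) : c ∈ coboundaries W CQ ↔ c ∈ WR.coboundaries W := by
  constructor
  · intro h
    refine AddSubgroup.closure_induction (p := fun P _ => P ∈ WR.coboundaries W) ?_ ?_ ?_ ?_ h
    · intro x hx
      exact (br_coboundary W x).1 hx
    · exact zero_mem _
    · intro x y _ _ hx hy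
      exact add_mem hx hy
    · intro x _ hx
      exact neg_mem hx
  · intro h
    exact AddSubgroup.subset_closure ((br_coboundary W c).2 h)

theorem br_locTrivial' (c : Cochain W CQ) (h : c ∈ locTrivial W CQ) : c ∈ WR.locTrivial W := by
  refine AddSubgroup.closure_induction (p := fun P _ => P ∈ WR.locTrivial W) ?_ ?_ ?_ ?_ h
  · intro x hx
    exact br_locTrivial W x hx
  · exact zero_mem _
  · intro x y _ _ hx hy
    exact add_mem hx hy
  · intro x _ hx
    exact neg_mem hx

noncomputable def br_equiv : RatPt W ≃+ WR.rationalPoints W where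
  toFun P := ⟨P.1, (br_rationalPoints W P.1).1 P.2⟩
  invFun P := ⟨P.1, (br_rationalPoints W P.1).2 P.2⟩
  left_inv _ := rfl
  right_inv _ := rfl
  map_add' _ _ := rfl

theorem br_sha (h : ∀ (x : WR.Sha W) (k : ℕ), 2 ^ k • x = 0 → x = 0) :
    ∀ (x : Sha W CQ) (k : ℕ), 2 ^ k • x = 0 → x = 0 := by
  intro x k hx
  obtain ⟨c, rfl⟩ := QuotientAddGroup.mk_surjective x
  have h1 : (2 ^ k • c : locTrivial W CQ) ∈ (coboundaries W CQ).addSubgroupOf (locTrivial W CQ) := by
    rw [← QuotientAddGroup.eq_zero_iff]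
    exact hx
  have h2 : (2 ^ k • c.1) ∈ coboundaries W CQ := AddSubgroup.mem_addSubgroupOf.1 h1
  let d : WR.locTrivial W := ⟨c.1, br_locTrivial' W c.1 c.2⟩
  have h3 : 2 ^ k • (QuotientAddGroup.mk d : WR.Sha W) = 0 := by
    have h4 : (2 ^ k • d) ∈ (WR.coboundaries W).addSubgroupOf (WR.locTrivial W) := by
      rw [AddSubgroup.mem_addSubgroupOf]
      exact (br_coboundaries W (2 ^ k • c.1)).1 h2
    exact (QuotientAddGroup.eq_zero_iff _).2 h4
  have h5 := h _ k h3
  have h6 : c.1 ∈ WR.coboundaries W :=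
    AddSubgroup.mem_addSubgroupOf.1 ((QuotientAddGroup.eq_zero_iff d).1 h5)
  exact (QuotientAddGroup.eq_zero_iff _).2 (AddSubgroup.mem_addSubgroupOf.2
    ((br_coboundaries W c.1).2 h6))

end

variable {K : Type} [Field K] [NumberField K] (W : WeierstrassCurve K)

theorem br_formula (S : Finset ℕ) (h : WR.TwoPartFormula W S) : TwoPartFormula W S := by
  obtain ⟨h1, L, h2, h3, h4, h5, q, h6, h7, h8⟩ := h
  refine ⟨Finite.of_equiv _ (br_equiv W).symm.toEquiv, L, h2, ?_, h4, br_sha W h5, q, h6, h7, ?_⟩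
  · rw [h3]
    have h9 : Module.finrank ℤ (RatPt W) = Module.finrank ℤ (WR.rationalPoints W) :=
      LinearEquiv.finrank_eq (br_equiv W).toIntLinearEquiv
    rw [h9]
  · rw [← h8, bsdQuotient, WR.bsdQuotient, WR.fin_iso_card (br_equiv W)]

end WeilRes
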