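import Pool.Agent.MP_dfae13_nt.R.StDefs

/-!
# The Birch and Swinnerton-Dyer formula for Weil restrictions: the `ℓ`-part
-/

set_option autoImplicit false

open NumberField IsDedekindDomain

namespace WeilRes

variable {K : Type} [Field K] [NumberField K] (W : WeierstrassCurve K)

/-- The `ℓ`-part of the conjecture for `A = Res_{K/ℚ} W` (with rank 0): `A(ℚ)` is finite (so that its
rank is 0 and its regulator is 1), the Euler product extends to an entire function `L` whose order of
vanishing at `1` is the rank of `A(ℚ)`, with `L(1) ≠ 0`, the Tate–Shafarevich group of `A` has no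
nonzero element of `ℓ`-power order, and the quotient `L(1) #A(ℚ)_tors #A'(ℚ)_tors / (V_∞ V_bad)` is
a nonzero rational number whose `ℓ`-adic valuation is 0. -/
def PartFormula (l : ℕ) (S : Finset ℕ) : Prop :=
  Finite (RatPt W) ∧ ∃ L : ℂ → ℂ, WR.IsEntireL W S L ∧
    analyticOrderAt L 1 = Module.finrank ℤ (RatPt W) ∧ L 1 ≠ 0 ∧
    (∀ (x : Sha W (AlgebraicClosure ℚ)) (k : ℕ), l ^ k • x = 0 → x = 0) ∧
    ∃ q : ℚ, q ≠ 0 ∧ padicValRat l q = 0 ∧ bsdQuotient W S (L 1) = q

end WeilRes
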