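import Pool.Agent.MP_dfae13_nt.R.Bridge
import Pool.Agent.MP_dfae13_nt.R.GenDefs

/-!
# The bridge from `W / K` to `Res_{K/ℚ} W` in general: any multiple, any value of the quotient
-/

set_option autoImplicit false

open NumberField IsDedekindDomain
open scoped Classical

namespace WR

variable {K : Type} [Field K] [NumberField K] (W : WeierstrassCurve K)

theorem sha_nsmul (n : ℕ) (h : ∀ x : SBSD.Sha W, n • x = 0 → x = 0) :
    ∀ x : Sha W, n • x = 0 → x = 0 := by
  obtain ⟨ψ⟩ := exists_psi K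
  intro x hx
  obtain ⟨c, rfl⟩ := QuotientAddGroup.mk_surjective x
  have h1 : (n • c : locTrivial W) ∈ (coboundaries W).addSubgroupOf (locTrivial W) := by
    rw [← QuotientAddGroup.eq_zero_iff]
    exact hx
  have h2 : (n • c.1) ∈ coboundaries W := AddSubgroup.mem_addSubgroupOf.1 h1
  let d : SBSD.locTrivial W := ⟨comp0 W ψ c.1, comp0_locTrivial W ψ c.1 c.2⟩
  have h3 : n • (QuotientAddGroup.mk d : SBSD.Sha W) = 0 := by
    have h4 : (n • d) ∈ (SBSD.coboundaries W).addSubgroupOf (SBSD.locTrivial W) := by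
      rw [AddSubgroup.mem_addSubgroupOf]
      show n • comp0 W ψ c.1 ∈ _
      rw [← comp0_nsmul]
      exact comp0_mem_coboundaries W ψ _ h2
    exact (QuotientAddGroup.eq_zero_iff _).2 h4
  have h5 := h _ h3
  have h6 : comp0 W ψ c.1 ∈ SBSD.coboundaries W :=
    AddSubgroup.mem_addSubgroupOf.1 ((QuotientAddGroup.eq_zero_iff d).1 h5)
  exact (QuotientAddGroup.eq_zero_iff _).2 (AddSubgroup.mem_addSubgroupOf.2
    (comp0_coboundary W ψ c.1 c.2.1 h6))

/-- The analytic part of the bridge. -/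
theorem analytic_res (S : Finset ℕ) (hS : IsBadSet W S)
    (hfin : Finite W.toAffine.Point) (L : ℂ → ℂ) (hL : SBSD.IsEntireLSeries W L) (hL3 : L 1 ≠ 0)
    (htam0 : ∏ᶠ v : HeightOneSpectrum (𝓞 K), SBSD.tam W v ≠ 0) (hper : SBSD.period W ≠ 0) :
    Finite (rationalPoints W) ∧ ∃ L' : ℂ → ℂ, IsEntireL W S L' ∧
      analyticOrderAt L' 1 = Module.finrank ℤ (rationalPoints W) ∧ L' 1 ≠ 0 ∧
      bsdQuotient W S (L' 1) = SBSD.bsdQuotient W (L 1) := by
  obtain ⟨hL1, hL2⟩ := hL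
  obtain ⟨e⟩ := rationalPoints_equiv W
  have hfinA : Finite (rationalPoints W) := Finite.of_equiv _ e.symm.toEquiv
  -- the product of the Euler factors
  set P : ℂ → ℂ := fun s => ∏ p ∈ S, Polynomial.aeval ((p : ℂ) ^ (-s)) (Pp W p) with hP
  have hPd : Differentiable ℂ P := by
    rw [hP]
    exact Differentiable.fun_finsetProd fun p hp => differentiable_Pp W p (hS.1 p hp)
  -- the Tamagawa numbers outside of `S`
  have htamS : ∀ v : HeightOneSpectrum (𝓞 K), (∀ p ∈ S, v ∉ above K p) → SBSD.tam W v = 1 := by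
    intro v hv
    obtain ⟨p, hp, hvp⟩ := fin_exists_prime v
    by_cases hpS : p ∈ S
    · exact absurd hvp (hv p hpS)
    · exact fin_tam_good W v ((hS.2 p hp hpS) v hvp).2
  have hsupp : (Function.mulSupport fun v : HeightOneSpectrum (𝓞 K) => SBSD.tam W v).Finite := by
    have h1 : (⋃ p ∈ (S : Set ℕ), above K p).Finite :=
      S.finite_toSet.biUnion fun p hp => fin_above_finite p (hS.1 p hp).ne_zero
    refine h1.subset ?_
    intro v hv
    rw [Set.mem_iUnion₂]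
    by_contra hcon
    push Not at hcon
    exact hv (htamS v fun p hp => hcon p hp)
  have htam : ∀ v : HeightOneSpectrum (𝓞 K), SBSD.tam W v ≠ 0 :=
    fin_finprod_ne_zero _ hsupp htam0
  -- the value at `1`
  have hP1 : P 1 = ∏ p ∈ S, ∏ᶠ v ∈ above K p, Polynomial.aeval ((qv v : ℂ)⁻¹) (Pv W v) :=
    Finset.prod_congr rfl fun p hp => Pp_one W p (hS.1 p hp)
  have hP1' : P 1 ≠ 0 := by
    rw [hP1, Finset.prod_ne_zero_iff]
    intro p hp
    rw [finprod_mem_eq_finite_toFinset_prod _ (fin_above_finite p (hS.1 p hp).ne_zero),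
      Finset.prod_ne_zero_iff]
    intro v _
    exact fin_aeval_ne_zero W v (htam v)
  have hVbad : (Vbad W S : ℂ) = ((∏ᶠ v : HeightOneSpectrum (𝓞 K), SBSD.tam W v : ℕ) : ℂ) * P 1 := by
    rw [fin_nat_cast_finprod _ hsupp, ← fin_prod S hS.1 (fun v => (SBSD.tam W v : ℂ))
      (fun v hv => by rw [htamS v hv, Nat.cast_one]), hP1, ← Finset.prod_mul_distrib, Vbad]
    push_cast
    refine Finset.prod_congr rfl fun p hp => ?_
    have hfinp := fin_above_finite (K := K) p (hS.1 p hp).ne_zero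
    rw [finprod_mem_eq_finite_toFinset_prod _ hfinp, finprod_mem_eq_finite_toFinset_prod _ hfinp,
      finprod_mem_eq_finite_toFinset_prod _ hfinp, ← Finset.prod_mul_distrib]
    push_cast
    exact Finset.prod_congr rfl fun v _ => Vv_eq W v
  have hL' : Differentiable ℂ (fun s => L s * P s) := hL1.mul hPd
  have hne : L 1 * P 1 ≠ 0 := mul_ne_zero hL3 hP1'
  refine ⟨hfinA, fun s => L s * P s, ⟨hL', ?_⟩, ?_, hne, ?_⟩
  · intro s hs
    obtain ⟨h1, h2⟩ := hL2 s hs
    obtain ⟨h3, h4⟩ := LS_eq W S hS.1 s h1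
    refine ⟨h3, ?_⟩
    show L s * P s = LS W S s
    rw [h4, h2]
  · have h1 : analyticOrderAt (fun s => L s * P s) 1 = 0 :=
      ((hL'.analyticAt 1).analyticOrderAt_eq_zero).2 hne
    rw [h1, CM27.finrank_finite]
    rfl
  · rw [bsdQuotient, SBSD.bsdQuotient, hVbad, fin_iso_card e, Vinf]
    have hD : (√|(discr K : ℝ)| : ℝ) ≠ 0 := by
      rw [Real.sqrt_ne_zero (abs_nonneg _), abs_ne_zero]
      exact_mod_cast NumberField.discr_ne_zero K
    have hDC : ((√|(discr K : ℝ)| : ℝ) : ℂ) ≠ 0 := by exact_mod_cast hD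
    have hper : (SBSD.period W : ℂ) ≠ 0 := by exact_mod_cast hper
    have htamC : ((∏ᶠ v : HeightOneSpectrum (𝓞 K), SBSD.tam W v : ℕ) : ℂ) ≠ 0 := by
      exact_mod_cast htam0
    push_cast at htamC ⊢
    field_simp

end WR

namespace WeilRes

section

variable {K : Type} [Field K] (W : WeierstrassCurve K)

theorem br_sha_nsmul (n : ℕ) (h : ∀ x : WR.Sha W, n • x = 0 → x = 0) :
    ∀ x : Sha W CQ, n • x = 0 → x = 0 := by
  intro x hx
  obtain ⟨c, rfl⟩ := QuotientAddGroup.mk_surjective x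
  have h1 : (n • c : locTrivial W CQ) ∈ (coboundaries W CQ).addSubgroupOf (locTrivial W CQ) := by
    rw [← QuotientAddGroup.eq_zero_iff]
    exact hx
  have h2 : (n • c.1) ∈ coboundaries W CQ := AddSubgroup.mem_addSubgroupOf.1 h1
  let d : WR.locTrivial W := ⟨c.1, br_locTrivial' W c.1 c.2⟩
  have h3 : n • (QuotientAddGroup.mk d : WR.Sha W) = 0 := by
    have h4 : (n • d) ∈ (WR.coboundaries W).addSubgroupOf (WR.locTrivial W) := by
      rw [AddSubgroup.mem_addSubgroupOf]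
      exact (br_coboundaries W (n • c.1)).1 h2
    exact (QuotientAddGroup.eq_zero_iff _).2 h4
  have h5 := h _ h3
  have h6 : c.1 ∈ WR.coboundaries W :=
    AddSubgroup.mem_addSubgroupOf.1 ((QuotientAddGroup.eq_zero_iff d).1 h5)
  exact (QuotientAddGroup.eq_zero_iff _).2 (AddSubgroup.mem_addSubgroupOf.2
    ((br_coboundaries W c.1).2 h6))

end

variable {K : Type} [Field K] [NumberField K] (W : WeierstrassCurve K)

theorem sha_nsmul (n : ℕ) (h : ∀ x : SBSD.Sha W, n • x = 0 → x = 0) :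
    ∀ x : Sha W (AlgebraicClosure ℚ), n • x = 0 → x = 0 :=
  br_sha_nsmul W n (WR.sha_nsmul W n h)

/-- The analytic part of the bridge. -/
theorem analytic_res (S : Finset ℕ) (hS : WR.IsBadSet W S)
    (hfin : Finite W.toAffine.Point) (L : ℂ → ℂ) (hL : SBSD.IsEntireLSeries W L) (hL3 : L 1 ≠ 0)
    (htam0 : ∏ᶠ v : HeightOneSpectrum (𝓞 K), SBSD.tam W v ≠ 0) (hper : SBSD.period W ≠ 0) :
    Finite (RatPt W) ∧ ∃ L' : ℂ → ℂ, WR.IsEntireL W S L' ∧
      analyticOrderAt L' 1 = Module.finrank ℤ (RatPt W) ∧ L' 1 ≠ 0 ∧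
      bsdQuotient W S (L' 1) = SBSD.bsdQuotient W (L 1) := by
  obtain ⟨h1, L', h2, h3, h4, h5⟩ := WR.analytic_res W S hS hfin L hL hL3 htam0 hper
  refine ⟨Finite.of_equiv _ (br_equiv W).symm.toEquiv, L', h2, ?_, h4, ?_⟩
  · rw [h3]
    have h9 : Module.finrank ℤ (RatPt W) = Module.finrank ℤ (WR.rationalPoints W) :=
      LinearEquiv.finrank_eq (br_equiv W).toIntLinearEquiv
    rw [h9]
  · rw [← h5, bsdQuotient, WR.bsdQuotient, WR.fin_iso_card (br_equiv W)]

/-- **The bridge for the `ℓ`-part.** -/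
theorem partFormula_of (l : ℕ) (S : Finset ℕ) (hS : WR.IsBadSet W S)
    (hfin : Finite W.toAffine.Point) (L : ℂ → ℂ) (hL : SBSD.IsEntireLSeries W L) (hL3 : L 1 ≠ 0)
    (hsha : ∀ (x : SBSD.Sha W) (k : ℕ), l ^ k • x = 0 → x = 0) (q : ℚ) (hq : q ≠ 0)
    (hql : padicValRat l q = 0) (hq1 : SBSD.bsdQuotient W (L 1) = q) : PartFormula W l S := by
  have hqC : (q : ℂ) ≠ 0 := by exact_mod_cast hq
  have htam0 : ∏ᶠ v : HeightOneSpectrum (𝓞 K), SBSD.tam W v ≠ 0 := by
    intro h0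
    rw [SBSD.bsdQuotient, h0] at hq1
    apply hqC
    rw [← hq1]; simp
  have hper : SBSD.period W ≠ 0 := by
    intro h0
    rw [SBSD.bsdQuotient, h0] at hq1
    apply hqC
    rw [← hq1]; simp
  obtain ⟨h1, L', h2, h3, h4, h5⟩ := analytic_res W S hS hfin L hL hL3 htam0 hper
  refine ⟨h1, L', h2, h3, h4, fun x k hx => ?_, q, hq, hql, ?_⟩
  · exact sha_nsmul W (l ^ k) (fun y hy => hsha y k hy) x hx
  · rw [h5, hq1]

end WeilRes
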