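import Pool.Agent.MP_dfae13_nt.R.R4defs

/-!
# [RES-4c] local triviality of the component of a cocycle
-/

set_option autoImplicit false

open NumberField IsDedekindDomain WeierstrassCurve.Affine Polynomial
open scoped Classical

namespace WR

theorem r4c_normal_gen (k : Type) [Field k] : Normal k (AlgebraicClosure k) :=
  IsAlgClosure.normal k (AlgebraicClosure k)

theorem r4c_alg_gen (k : Type) [Field k] : Algebra.IsAlgebraic k (AlgebraicClosure k) :=
  inferInstance

theorem r4c_normal_QBar : Normal ℚ QBar := by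
  convert r4c_normal_gen ℚ
  exact Subsingleton.elim _ _

theorem r4c_alg_QBar : Algebra.IsAlgebraic ℚ QBar := by
  have := r4c_normal_QBar
  infer_instance

/-- Two embeddings of a normal extension differ by an automorphism. -/
theorem r4c_normal {F₀ E M : Type} [Field F₀] [Field E] [Field M] [Algebra F₀ E] [Algebra F₀ M]
    [Normal F₀ E] (a b : E →ₐ[F₀] M) : ∃ g : E ≃ₐ[F₀] E, ∀ x, a (g x) = b x := by
  let _ : Algebra E M := (a : E →+* M).toAlgebra
  have : IsScalarTower F₀ E M := IsScalarTower.of_algebraMap_eq fun x => (a.commutes x).symm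
  exact ⟨b.restrictNormal' E, fun x => b.restrictNormal_commutes E x⟩

theorem r4c_map {K : Type} [Field K] (W : WeierstrassCurve K) {A B : Type} [Field A] [Field B]
    [Algebra K A] [Algebra K B] (f : A →ₐ[K] B) (P : SBSD.Pts W A) :
    Point.map f P = mapPt W (τ := algebraMap K A) (τ' := algebraMap K B) (f : A →+* B)
      f.comp_algebraMap P := by
  cases P <;> rfl

theorem r4c_emb {K : Type} [Field K] (W : WeierstrassCurve K) {A B : Type} [Field A] [Field B]
    (P : APt W A) {τ τ' : K →+* A} {τ'' : K →+* B} (e : τ = τ') (f f' : A →+* B) (hf : f = f')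
    (h : f.comp τ = τ'') (h' : f'.comp τ' = τ'') :
    mapPt W f h (P τ) = mapPt W f' h' (P τ') := by
  subst e
  subst hf
  rfl

theorem comp0_trivialOver {K : Type} [Field K] [NumberField K] (W : WeierstrassCurve K)
    (ψ : AlgebraicClosure K ≃+* QBar) (c : GQ → APt W QBar) (hc : c ∈ cocycles W)
    (L : Type) [Field L] [Algebra ℚ L] (F : Type) [Field F] [Algebra K F] (f : L →+* F)
    (h : TrivialOver W L c) : SBSD.TrivialOver W F (comp0 W ψ c) := by
  intro j'
  -- the embedding of `L̄` in `F̄`
  obtain ⟨F', hF'⟩ : ∃ F' : AlgebraicClosure L →+* AlgebraicClosure F,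
      F'.comp (algebraMap L (AlgebraicClosure L)) =
        (algebraMap F (AlgebraicClosure F)).comp f := by
    let _ : Algebra L (AlgebraicClosure F) := ((algebraMap F (AlgebraicClosure F)).comp f).toAlgebra
    exact ⟨(IsAlgClosed.lift : AlgebraicClosure L →ₐ[L] AlgebraicClosure F),
      AlgHom.comp_algebraMap _⟩
  have hF'i : Function.Injective F' := F'.injective
  -- the embedding of `ℚ̄` in `L̄`
  obtain ⟨j, hj⟩ : ∃ j : QBar →+* AlgebraicClosure L,
      F'.comp j = (j' : AlgebraicClosure K →+* AlgebraicClosure F).comp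
        (ψ.symm : QBar →+* AlgebraicClosure K) := by
    have : CharZero L := algebraRat.charZero L
    have : CharZero F := charZero_of_injective_algebraMap (algebraMap K F).injective
    have := r4c_alg_QBar
    have := r4c_normal_QBar
    let j0 : QBar →ₐ[ℚ] AlgebraicClosure L := IsAlgClosed.lift
    let a : QBar →ₐ[ℚ] AlgebraicClosure F := (F'.comp (j0 : QBar →+* AlgebraicClosure L)).toRatAlgHom
    let b : QBar →ₐ[ℚ] AlgebraicClosure F :=
      ((j' : AlgebraicClosure K →+* AlgebraicClosure F).comp
        (ψ.symm : QBar →+* AlgebraicClosure K)).toRatAlgHom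
    obtain ⟨g, hg⟩ := r4c_normal a b
    refine ⟨(j0 : QBar →+* AlgebraicClosure L).comp (g : QBar →+* QBar), ?_⟩
    ext x
    exact hg x
  obtain ⟨Q, hQ⟩ := h j
  -- the base embedding
  set τ₀ : K →+* QBar := (ψ : AlgebraicClosure K →+* QBar).comp
    (algebraMap K (AlgebraicClosure K)) with hτ₀
  have hb : F'.comp (j.comp τ₀) = algebraMap K (AlgebraicClosure F) := by
    rw [← RingHom.comp_assoc, hj, hτ₀]
    ext x
    simp
  refine ⟨mapPt W F' hb (Q (j.comp τ₀)), fun σ τ hστ => ?_⟩
  -- the restriction of `σ`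
  obtain ⟨σL, hσL⟩ : ∃ σL : AlgebraicClosure L ≃ₐ[L] AlgebraicClosure L,
      ∀ x, F' (σL x) = σ (F' x) := by
    let _ : Algebra L (AlgebraicClosure F) := ((algebraMap F (AlgebraicClosure F)).comp f).toAlgebra
    let a : AlgebraicClosure L →ₐ[L] AlgebraicClosure F :=
      { toRingHom := F', commutes' := fun x => congrArg (fun φ : L →+* AlgebraicClosure F => φ x) hF' }
    let b : AlgebraicClosure L →ₐ[L] AlgebraicClosure F :=
      { toRingHom := (σ : AlgebraicClosure F →+* AlgebraicClosure F).comp F'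
        commutes' := fun x => by
          have h1 : F' (algebraMap L (AlgebraicClosure L) x) =
            algebraMap F (AlgebraicClosure F) (f x) :=
              congrArg (fun φ : L →+* AlgebraicClosure F => φ x) hF'
          show σ (F' (algebraMap L (AlgebraicClosure L) x)) = algebraMap F (AlgebraicClosure F) (f x)
          rw [h1, σ.commutes] }
    exact r4c_normal a b
  have hjx : ∀ x, F' (j x) = j' (ψ.symm x) := fun x =>
    congrArg (fun φ : QBar →+* AlgebraicClosure F => φ x) hj
  have hres : ∀ x, resG ψ τ x = ψ (τ (ψ.symm x)) := fun x => rfl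
  have hcomm : (σL : AlgebraicClosure L →+* AlgebraicClosure L).comp j =
      j.comp (resG ψ τ : QBar →+* QBar) := by
    ext x
    apply hF'i
    show F' (σL (j x)) = F' (j (resG ψ τ x))
    rw [hσL, hjx, hjx, hres, ψ.symm_apply_apply, hστ]
  have hact : act (resG ψ τ) τ₀ = τ₀ := by
    ext x
    show resG ψ τ (τ₀ x) = τ₀ x
    rw [hres, hτ₀]
    simp
  have key := hQ σL (resG ψ τ) hcomm τ₀
  have hb' : F'.comp (j.comp (act (resG ψ τ) τ₀)) = algebraMap K (AlgebraicClosure F) := by
    rw [hact, hb]
  have key2 := congrArg (mapPt W F' hb') key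
  rw [map_sub, mapPt_mapPt, mapPt_mapPt] at key2
  have hj' : (j' : AlgebraicClosure K →+* AlgebraicClosure F).comp
      (ψ.symm : QBar →+* AlgebraicClosure K) = F'.comp j := hj.symm
  have hσ' : (((σ : SBSD.AbsGal F).toAlgHom.restrictScalars K :
      AlgebraicClosure F →ₐ[K] AlgebraicClosure F) : AlgebraicClosure F →+* AlgebraicClosure F).comp
      F' = F'.comp (σL : AlgebraicClosure L →+* AlgebraicClosure L) := by
    ext x
    exact (hσL x).symm
  have e1 : Point.map j' (comp0 W ψ c τ) =
      mapPt W (F'.comp j) (by rw [RingHom.comp_assoc]; exact hb') (c (resG ψ τ)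
        (act (resG ψ τ) τ₀)) := by
    rw [r4c_map]
    unfold comp0
    rw [mapPt_mapPt]
    exact r4c_emb W (c (resG ψ τ)) hact.symm _ _ hj' _ _
  have e2 : Point.map ((σ : SBSD.AbsGal F).toAlgHom.restrictScalars K) (mapPt W F' hb (Q (j.comp τ₀))) =
      mapPt W (F'.comp (σL : AlgebraicClosure L →+* AlgebraicClosure L)) (by
        rw [← hσ', RingHom.comp_assoc, hb]
        exact AlgHom.comp_algebraMap _) (Q (j.comp τ₀)) := by
    refine (r4c_map W ((σ : SBSD.AbsGal F).toAlgHom.restrictScalars K)
      (mapPt W F' hb (Q (j.comp τ₀)))).trans ?_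
    refine (mapPt_mapPt W F' _ hb _ (Q (j.comp τ₀))).trans ?_
    exact mapPt_congr W hσ' _ _ _
  have e3 : mapPt W F' hb' (Q (j.comp (act (resG ψ τ) τ₀))) = mapPt W F' hb (Q (j.comp τ₀)) :=
    r4c_emb W Q (by rw [hact]) _ _ rfl _ _
  rw [e1, e2, ← e3]
  exact key2

end WR
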