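import Pool.Agent.MP_9ab903_nt.Defs

/-!
# The Birch and Swinnerton-Dyer formula for Weil restrictions: the `L`-function and the volumes

Let `W` be an elliptic curve over a number field `K`, given by a Weierstrass equation, and let
`A = Res_{K/ℚ} W` be its Weil restriction, an abelian variety over `ℚ`. We define the `L`-function of
`A` with the Euler factors at a finite set of primes removed, and the volumes `V_∞` and `V_bad`.
-/

set_option autoImplicit false

open NumberField IsDedekindDomain WeierstrassCurve.Affine
open scoped Classical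

namespace WR

/-! ## The `L`-function -/

section L

open Polynomial

variable {K : Type} [Field K] [NumberField K] (W : WeierstrassCurve K)

/-- The finite places of `K` above the prime number `p`. -/
def above (K : Type) [Field K] [NumberField K] (p : ℕ) : Set (HeightOneSpectrum (𝓞 K)) :=
  {v | (p : 𝓞 K) ∈ v.asIdeal}

/-- The number `q_v` of elements of the residue field of `v`. -/
noncomputable def qv (v : HeightOneSpectrum (𝓞 K)) : ℕ := Nat.card (𝓞 K ⧸ v.asIdeal)

/-- The local polynomial `P_v(T)` of `W` at `v` of Mathlib; it is `1 - a_v T + q_v T²` at the places of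
good reduction. -/
noncomputable def Pv (v : HeightOneSpectrum (𝓞 K)) : ℤ[X] :=
  (W.baseChange (v.adicCompletion K)).localPolynomial (v.adicCompletionIntegers K)

/-- The polynomial `P_p(T) = ∏_{v ∣ p} P_v(T^{f_v})`, where `q_v = p ^ f_v`. -/
noncomputable def Pp (p : ℕ) : ℤ[X] :=
  ∏ᶠ v ∈ above K p, (Pv W v).comp (X ^ Nat.log p (qv v))

/-- `A = Res_{K/ℚ} W` has good reduction at `p`: the prime number `p` is not ramified in `K`, and `W`
has good reduction at all places of `K` above `p`. -/
def GoodAt (p : ℕ) : Prop :=
  ∀ v ∈ above K p, (p : 𝓞 K) ∉ v.asIdeal ^ 2 ∧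
    ((W.baseChange (v.adicCompletion K)).minimal (v.adicCompletionIntegers K)).HasGoodReduction
      (v.adicCompletionIntegers K)

/-- The Euler product `L(A, s) = ∏_{p ∉ S} 1 / P_p(p ^ (-s))`. -/
noncomputable def LS (S : Finset ℕ) (s : ℂ) : ℂ :=
  ∏' p : {p : ℕ // p.Prime ∧ p ∉ S}, (aeval ((p : ℂ) ^ (-s)) (Pp W p))⁻¹

end L

/-! ## The volumes -/

section Volumes

variable {K : Type} [Field K] [NumberField K] (W : WeierstrassCurve K)

/-- The volume `V_∞ = ∫_{A(ℝ)} |ω|`, where `ω` is a generator of the top exterior power of the module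
of the invariant differentials of the Néron model of `A` over `ℤ`. It is the product of the periods
of `W` at the archimedean places of `K` and of the Néron factors at the finite places (which is
`SBSD.period W`), divided by the square root of the absolute value of the discriminant of `K`. -/
noncomputable def Vinf : ℝ := SBSD.period W / √|(discr K : ℝ)|

/-- The volume `∫_{W(K_v)} |ω_v| = c_v #W̃(k_v) / q_v` of `W(K_v)` for the invariant differential
`ω_v` of the Néron model at `v`; here `#W̃(k_v)` is the number of the nonsingular points of the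
reduction of a minimal Weierstrass equation. -/
noncomputable def Vv (v : HeightOneSpectrum (𝓞 K)) : ℝ :=
  (SBSD.tam W v : ℝ) * Nat.card (((W.baseChange (v.adicCompletion K)).minimal
    (v.adicCompletionIntegers K)).reduction (v.adicCompletionIntegers K)).toAffine.Point / qv v

/-- The volume `V_bad = ∏_{p ∈ S} ∫_{A(ℚ_p)} |ω|_p`; here `A(ℚ_p) = ∏_{v ∣ p} W(K_v)`. -/
noncomputable def Vbad (S : Finset ℕ) : ℝ := ∏ p ∈ S, ∏ᶠ v ∈ above K p, Vv W v

end Volumes

/-! ## The set `S` and the entire continuation -/

section

variable {K : Type} [Field K] [NumberField K] (W : WeierstrassCurve K)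

/-- `S` is a finite set of prime numbers which contains all primes of bad reduction of
`A = Res_{K/ℚ} W`. -/
def IsBadSet (S : Finset ℕ) : Prop :=
  (∀ p ∈ S, p.Prime) ∧ ∀ p : ℕ, p.Prime → p ∉ S → GoodAt W p

/-- `L` is an entire function which extends `L(A, s) = ∏_{p ∉ S} 1 / P_p(p ^ (-s))`; the product
converges for `Re s > 3/2`. -/
def IsEntireL (S : Finset ℕ) (L : ℂ → ℂ) : Prop :=
  Differentiable ℂ L ∧ ∀ s : ℂ, 3 / 2 < s.re →
    Multipliable (fun p : {p : ℕ // p.Prime ∧ p ∉ S} =>
      (Polynomial.aeval ((p : ℂ) ^ (-s)) (Pp W p))⁻¹) ∧ L s = LS W S s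

end

end WR
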