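import Pool.Agent.MP_dfae13_nt.R.Defs

/-!
# Weil restrictions: basic lemmas
-/

set_option autoImplicit false

open NumberField IsDedekindDomain WeierstrassCurve.Affine
open scoped Classical

namespace WR

section

variable {K : Type} [Field K] (W : WeierstrassCurve K)
  {L L' L'' : Type} [Field L] [Field L'] [Field L'']

theorem mapPt_mapPt {τ : K →+* L} {τ' : K →+* L'} {τ'' : K →+* L''} (f : L →+* L')
    (g : L' →+* L'') (h : f.comp τ = τ') (h' : g.comp τ' = τ'') (P : (W.map τ).toAffine.Point) :
    mapPt W g h' (mapPt W f h P) =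
      mapPt W (g.comp f) (by rw [RingHom.comp_assoc, h, h']) P := by
  cases P <;> rfl

theorem mapPt_id {τ τ' : K →+* L} (h : τ = τ') (P : (W.map τ).toAffine.Point) :
    mapPt W (RingHom.id L) (by rw [RingHom.id_comp, h]) P = h ▸ P := by
  subst h
  cases P <;> rfl

theorem mapPt_id' {τ : K →+* L} (h : (RingHom.id L).comp τ = τ) (P : (W.map τ).toAffine.Point) :
    mapPt W (RingHom.id L) h P = P := by
  cases P <;> rfl

theorem mapPt_congr {τ : K →+* L} {τ' : K →+* L'} {f f' : L →+* L'} (hf : f = f')
    (h : f.comp τ = τ') (h' : f'.comp τ = τ') (P : (W.map τ).toAffine.Point) :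
    mapPt W f h P = mapPt W f' h' P := by
  subst hf
  rfl

/-- Transport along an equality of embeddings. -/
theorem transport (P : APt W L) {τ τ' : K →+* L} (h : (RingHom.id L).comp τ = τ') :
    mapPt W (RingHom.id L) h (P τ) = P τ' := by
  have h' : τ = τ' := h
  subst h'
  exact mapPt_id' W _ _

theorem mapPt_injective {τ : K →+* L} {τ' : K →+* L'} (f : L →+* L') (h : f.comp τ = τ') :
    Function.Injective (mapPt W f h) := by
  letI := τ.toAlgebra
  letI := τ'.toAlgebra
  exact Point.map_injective (W' := W) (S := K)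
    (f := ({ toRingHom := f, commutes' := fun x => congrArg (fun g : K →+* L' => g x) h } :
      L →ₐ[K] L'))

end

end WR
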