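import Pool.Agent.MP_dfae13_nt.R.LDefs

/-!
# The Birch and Swinnerton-Dyer formula for Weil restrictions: definitions

Let `W` be an elliptic curve over a number field `K` of degree `n`, given by a Weierstrass
equation. The Weil restriction `A = Res_{K/ℚ} W` is an abelian variety of dimension `n` over `ℚ`,
characterised by `A(R) = W(K ⊗ R)` for all `ℚ`-algebras `R`. We define the quantities which occur in
the conjecture of Birch and Swinnerton-Dyer for `A`: the Galois module `A(ℚ̄)`, the group `A(ℚ)`, the
Tate–Shafarevich group of `A` over `ℚ`, the `L`-function of `A` with the Euler factors at a finite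
set of primes removed, and the volumes `V_∞` and `V_bad`.
-/

set_option autoImplicit false

open NumberField IsDedekindDomain WeierstrassCurve.Affine
open scoped Classical

namespace WR

/-! ## Points over algebraically closed fields, Galois action -/

section Points

variable {K : Type} [Field K] (W : WeierstrassCurve K)

/-- Let `τ : K → L` and `τ' : K → L'` be homomorphisms of fields and let `f : L → L'` be a
homomorphism with `f ∘ τ = τ'`. This is the homomorphism `(x, y) ↦ (f x, f y)` from the group of the
points over `L` of the conjugate curve `W^τ` to the group of the points over `L'` of the conjugate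
curve `W^τ'`. -/
noncomputable def mapPt {L L' : Type} [Field L] [Field L'] {τ : K →+* L} {τ' : K →+* L'}
    (f : L →+* L') (h : f.comp τ = τ') :
    (W.map τ).toAffine.Point →+ (W.map τ').toAffine.Point :=
  letI := τ.toAlgebra
  letI := τ'.toAlgebra
  Point.map (W' := W) (S := K)
    { toRingHom := f, commutes' := fun x => congrArg (fun g : K →+* L' => g x) h }

theorem mapPt_some {L L' : Type} [Field L] [Field L'] {τ : K →+* L} {τ' : K →+* L'}
    (f : L →+* L') (h : f.comp τ = τ') (x y : L) (hxy : (W.map τ).toAffine.Nonsingular x y) :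
    ∃ h', mapPt W f h (.some x y hxy) = .some (f x) (f y) h' := ⟨_, rfl⟩

/-- The points of `A = Res_{K/ℚ} W` over an algebraically closed field `L` of characteristic 0:
since `K ⊗ L` is the product of copies of `L` indexed by the embeddings `τ` of `K` in `L`, this is
the product of the groups of the points over `L` of the conjugate curves `W^τ`. -/
abbrev APt (L : Type) [Field L] : Type := ∀ τ : K →+* L, (W.map τ).toAffine.Point

end Points

/-! ## Rational points and the Tate–Shafarevich group -/

section Sha

variable {K : Type} [Field K] (W : WeierstrassCurve K)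

/-- The algebraic numbers. -/
abbrev QBar : Type := AlgebraicClosure ℚ

/-- The absolute Galois group of `ℚ`. -/
abbrev GQ : Type := QBar ≃ₐ[ℚ] QBar

/-- The composite of an embedding `τ : K → ℚ̄` and of `g ∈ Gal(ℚ̄/ℚ)`. -/
noncomputable abbrev act (g : GQ) (τ : K →+* QBar) : K →+* QBar := (g : QBar →+* QBar).comp τ

/-- The group `A(ℚ)` of the rational points of `A = Res_{K/ℚ} W`: the elements of `A(ℚ̄)` which are
fixed by `Gal(ℚ̄/ℚ)`. The component at `g ∘ τ` of the image of `P ∈ A(ℚ̄)` under `g ∈ Gal(ℚ̄/ℚ)` is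
the image of the component at `τ` of `P` under `g`. -/
noncomputable def rationalPoints : AddSubgroup (APt W QBar) where
  carrier := {P | ∀ (g : GQ) (τ : K →+* QBar), mapPt W (g : QBar →+* QBar) rfl (P τ) = P (act g τ)}
  zero_mem' := fun g τ => by simp
  add_mem' := by
    intro a b ha hb g τ
    simp only [Pi.add_apply, map_add, ha g τ, hb g τ]
  neg_mem' := by
    intro a ha g τ
    simp only [Pi.neg_apply, map_neg, ha g τ]

/-- The continuous crossed homomorphisms `Gal(ℚ̄/ℚ) → A(ℚ̄)`, `c (g h) = c g + g (c h)`. -/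
noncomputable def cocycles : AddSubgroup (GQ → APt W QBar) where
  carrier := {c | IsLocallyConstant c ∧ ∀ (g h : GQ) (τ : K →+* QBar),
    c (g * h) (act g τ) = c g (act g τ) + mapPt W (g : QBar →+* QBar) rfl (c h τ)}
  zero_mem' := ⟨IsLocallyConstant.const _, fun g h τ => by simp⟩
  add_mem' := by
    rintro a b ⟨ha, ha'⟩ ⟨hb, hb'⟩
    refine ⟨ha.add hb, fun g h τ => ?_⟩
    simp only [Pi.add_apply, ha', hb', map_add]
    abel
  neg_mem' := by
    rintro a ⟨ha, ha'⟩
    refine ⟨ha.neg, fun g h τ => ?_⟩
    simp only [Pi.neg_apply, ha', map_neg]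
    abel

/-- The principal crossed homomorphisms `g ↦ g P - P`, `P ∈ A(ℚ̄)`. -/
noncomputable def coboundaries : AddSubgroup (GQ → APt W QBar) where
  carrier := {c | ∃ P : APt W QBar, ∀ (g : GQ) (τ : K →+* QBar),
    c g (act g τ) = mapPt W (g : QBar →+* QBar) rfl (P τ) - P (act g τ)}
  zero_mem' := ⟨0, fun g τ => by simp⟩
  add_mem' := by
    rintro a b ⟨P, hP⟩ ⟨Q, hQ⟩
    refine ⟨P + Q, fun g τ => ?_⟩
    simp only [Pi.add_apply, hP, hQ, map_add]
    abel
  neg_mem' := by
    rintro a ⟨P, hP⟩
    refine ⟨-P, fun g τ => ?_⟩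
    simp only [Pi.neg_apply, hP, map_neg]
    abel

/-- The crossed homomorphism `c : Gal(ℚ̄/ℚ) → A(ℚ̄)` becomes principal over the extension `L` of `ℚ`:
for every embedding `j : ℚ̄ → L̄`, the crossed homomorphism `Gal(L̄/L) → A(L̄)` which sends `σ` to the
image of `c g` under `j`, where `g` is the restriction of `σ` to `ℚ̄`, is principal. (The embeddings
of `K` in `L̄` are the `j ∘ τ`, where `τ` is an embedding of `K` in `ℚ̄`.) -/
def TrivialOver (L : Type) [Field L] [Algebra ℚ L] (c : GQ → APt W QBar) : Prop :=
  ∀ j : QBar →+* AlgebraicClosure L, ∃ Q : APt W (AlgebraicClosure L),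
    ∀ (σ : AlgebraicClosure L ≃ₐ[L] AlgebraicClosure L) (g : GQ)
      (h : (σ : AlgebraicClosure L →+* AlgebraicClosure L).comp j =
        j.comp (g : QBar →+* QBar)) (τ : K →+* QBar),
      mapPt W j rfl (c g (act g τ)) =
        mapPt W (σ : AlgebraicClosure L →+* AlgebraicClosure L)
          (by rw [← RingHom.comp_assoc, h, RingHom.comp_assoc]) (Q (j.comp τ)) -
          Q (j.comp (act g τ))

/-- The crossed homomorphisms whose class in `H¹(ℚ, A)` is in the kernel of
`H¹(ℚ, A) → ∏_v H¹(ℚ_v, A)`; the product is over all places `v` of `ℚ`. -/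
noncomputable def locTrivial : AddSubgroup (GQ → APt W QBar) where
  carrier := {c | c ∈ cocycles W ∧ (∀ (p : ℕ) [Fact p.Prime], TrivialOver W ℚ_[p] c) ∧
    TrivialOver W ℝ c}
  zero_mem' := ⟨zero_mem _, fun p _ j => ⟨0, by simp⟩, fun j => ⟨0, by simp⟩⟩
  add_mem' := by
    have key : ∀ (L : Type) [Field L] [Algebra ℚ L] (a b : GQ → APt W QBar),
        TrivialOver W L a → TrivialOver W L b → TrivialOver W L (a + b) := by
      intro L _ _ a b ha hb j
      obtain ⟨P, hP⟩ := ha j
      obtain ⟨Q, hQ⟩ := hb j
      refine ⟨P + Q, fun σ g h τ => ?_⟩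
      simp only [Pi.add_apply, map_add, hP σ g h, hQ σ g h]
      abel
    rintro a b ⟨ha, ha', ha''⟩ ⟨hb, hb', hb''⟩
    exact ⟨add_mem ha hb, fun p _ => key _ a b (ha' p) (hb' p), key _ a b ha'' hb''⟩
  neg_mem' := by
    have key : ∀ (L : Type) [Field L] [Algebra ℚ L] (a : GQ → APt W QBar),
        TrivialOver W L a → TrivialOver W L (-a) := by
      intro L _ _ a ha j
      obtain ⟨P, hP⟩ := ha j
      refine ⟨-P, fun σ g h τ => ?_⟩
      simp only [Pi.neg_apply, map_neg, hP σ g h]
      abel
    rintro a ⟨ha, ha', ha''⟩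
    exact ⟨neg_mem ha, fun p _ => key _ a (ha' p), key _ a ha''⟩

/-- The Tate–Shafarevich group of `A = Res_{K/ℚ} W` over `ℚ`. -/
abbrev Sha : Type := locTrivial W ⧸ (coboundaries W).addSubgroupOf (locTrivial W)

end Sha

end WR
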