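import Pool.Agent.MP_dfae13_nt.R.R4c

/-!
# [RES-3] `A(ℚ) ≅ W(K)`
-/

set_option autoImplicit false

open NumberField IsDedekindDomain WeierstrassCurve.Affine Polynomial
open scoped Classical

namespace WR

section

variable {K : Type} [Field K] (W : WeierstrassCurve K)

/-- the point of `W^τ` given by a point of `W` -/
noncomputable def r3pt {L : Type} [Field L] (τ : K →+* L) :
    (W.map (RingHom.id K)).toAffine.Point →+ (W.map τ).toAffine.Point :=
  mapPt W (τ := RingHom.id K) (τ' := τ) τ (RingHom.comp_id τ)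

theorem r3pt_map {L L' : Type} [Field L] [Field L'] (τ : K →+* L) (τ' : K →+* L') (f : L →+* L')
    (h : f.comp τ = τ') (P : (W.map (RingHom.id K)).toAffine.Point) :
    mapPt W f h (r3pt W τ P) = r3pt W τ' P := by
  unfold r3pt
  rw [mapPt_mapPt]
  exact mapPt_congr W h _ _ _

theorem r3pt_injective {L : Type} [Field L] (τ : K →+* L) : Function.Injective (r3pt W τ) :=
  mapPt_injective W _ _

end

variable {K : Type} [Field K] [NumberField K] (W : WeierstrassCurve K)

/-- An algebraic number which is fixed by the automorphisms fixing `τ₀(K)` is in `τ₀(K)`. -/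
theorem r3_fixed (τ₀ : K →+* QBar) (x : QBar)
    (h : ∀ g : GQ, (g : QBar →+* QBar).comp τ₀ = τ₀ → g x = x) : ∃ y, τ₀ y = x := by
  let _ : Algebra K QBar := τ₀.toAlgebra
  have : IsScalarTower ℚ K QBar := IsScalarTower.of_algebraMap_eq fun q => by
    rw [eq_ratCast, eq_ratCast]
    exact (map_ratCast τ₀ q).symm
  have halg : Algebra.IsAlgebraic K QBar := by
    have := r4c_alg_QBar
    exact Algebra.IsAlgebraic.tower_top (K := ℚ) (L := K) (A := QBar)
  have hcl : IsAlgClosure K QBar := ⟨inferInstance, halg⟩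
  have hn : Normal K QBar := IsAlgClosure.normal K QBar
  have hg : IsGalois K QBar := IsGalois.mk
  have h1 := (InfiniteGalois.mem_range_algebraMap_iff_fixed (k := K) (K := QBar) x).2 (by
    intro f
    let g : GQ := AlgEquiv.ofRingEquiv (f := f.toRingEquiv) (fun q => by simp)
    refine h g ?_
    ext y
    exact f.commutes y)
  exact h1

theorem r3_lift {K A B : Type} [Field K] [Field A] [Field B] [Algebra K A] [Algebra K B]
    [Algebra.IsAlgebraic K A] [IsAlgClosed B] :
    ∃ f : A →+* B, f.comp (algebraMap K A) = algebraMap K B :=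
  ⟨(IsAlgClosed.lift : A →ₐ[K] B), AlgHom.comp_algebraMap _⟩

theorem r3_trans (τ₀ τ : K →+* QBar) : ∃ g : GQ, (g : QBar →+* QBar).comp τ₀ = τ := by
  have hnf := r4c_normal_QBar
  have halg := r4c_alg_QBar
  -- extend `τ` to an endomorphism of `ℚ̄`
  obtain ⟨f, hf⟩ : ∃ f : QBar →+* QBar, f.comp τ₀ = τ := by
    let i₀ : Algebra K QBar := τ₀.toAlgebra
    have : IsScalarTower ℚ K QBar := IsScalarTower.of_algebraMap_eq fun q => by
      rw [eq_ratCast, eq_ratCast]
      exact (map_ratCast τ₀ q).symm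
    have halg' : Algebra.IsAlgebraic K QBar :=
      Algebra.IsAlgebraic.tower_top (K := ℚ) (L := K) (A := QBar)
    exact @r3_lift K QBar QBar _ _ _ i₀ τ.toAlgebra halg' inferInstance
  obtain ⟨g, hg⟩ := r4c_normal (F₀ := ℚ) (AlgHom.id ℚ QBar) f.toRatAlgHom
  refine ⟨g, ?_⟩
  rw [← hf]
  ext x
  exact hg (τ₀ x)

theorem r3_surj (P : APt W QBar) (hP : P ∈ rationalPoints W) :
    ∃ Q : (W.map (RingHom.id K)).toAffine.Point, ∀ τ, P τ = r3pt W τ Q := by
  let τ₀ : K →+* QBar := (IsAlgClosed.lift : K →ₐ[ℚ] QBar)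
  have hfix : ∀ g : GQ, ∀ hg : (g : QBar →+* QBar).comp τ₀ = τ₀, mapPt W (g : QBar →+* QBar) hg (P τ₀)
      = P τ₀ := by
    intro g hg
    have h1 := hP g τ₀
    have h2 : mapPt W (RingHom.id QBar) hg (P (act g τ₀)) = P τ₀ := transport W P hg
    rw [← h1, mapPt_mapPt] at h2
    refine Eq.trans ?_ h2
    exact mapPt_congr W (RingHom.id_comp (g : QBar →+* QBar)).symm _ _ _
  obtain ⟨Q, hQ⟩ : ∃ Q, r3pt W τ₀ Q = P τ₀ := by
    obtain ⟨P₀, hP₀⟩ : ∃ P₀, P₀ = P τ₀ := ⟨_, rfl⟩
    rw [← hP₀] at hfix ⊢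
    rcases P₀ with _ | ⟨x, y, hxy⟩
    · exact ⟨0, map_zero _⟩
    · have hx : ∃ x', τ₀ x' = x := by
        refine r3_fixed τ₀ x fun g hg => ?_
        have h1 := hfix g hg
        obtain ⟨h2, h3⟩ := mapPt_some W (g : QBar →+* QBar) hg x y hxy
        rw [h3] at h1
        exact ((Point.some.injEq _ _ _ _ _ _).mp h1).1
      have hy : ∃ y', τ₀ y' = y := by
        refine r3_fixed τ₀ y fun g hg => ?_
        have h1 := hfix g hg
        obtain ⟨h2, h3⟩ := mapPt_some W (g : QBar →+* QBar) hg x y hxy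
        rw [h3] at h1
        exact ((Point.some.injEq _ _ _ _ _ _).mp h1).2
      obtain ⟨x', rfl⟩ := hx
      obtain ⟨y', rfl⟩ := hy
      have h3 : (W.map (RingHom.id K)).toAffine.Nonsingular x' y' :=
        (WeierstrassCurve.Affine.map_nonsingular (W := (W.map (RingHom.id K)).toAffine)
          (f := τ₀) τ₀.injective x' y').1 hxy
      exact ⟨.some x' y' h3, rfl⟩
  refine ⟨Q, fun τ => ?_⟩
  obtain ⟨g, hg⟩ := r3_trans τ₀ τ
  subst hg
  have h1 := hP g τ₀
  rw [← hQ, r3pt_map W τ₀ (act g τ₀) _ rfl] at h1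
  exact h1.symm

theorem rationalPoints_equiv {K : Type} [Field K] [NumberField K] (W : WeierstrassCurve K) :
    Nonempty (rationalPoints W ≃+ W.toAffine.Point) := by
  let τ₀ : K →+* QBar := (IsAlgClosed.lift : K →ₐ[ℚ] QBar)
  let F : (W.map (RingHom.id K)).toAffine.Point →+ rationalPoints W :=
    { toFun := fun Q => ⟨fun τ => r3pt W τ Q, fun g τ => r3pt_map W τ _ _ rfl Q⟩
      map_zero' := by
        apply Subtype.ext
        funext τ
        exact map_zero _
      map_add' := fun Q Q' => by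
        apply Subtype.ext
        funext τ
        exact map_add _ _ _ }
  have hF : Function.Bijective F := by
    constructor
    · intro Q Q' h
      have h1 : r3pt W τ₀ Q = r3pt W τ₀ Q' := congrFun (congrArg Subtype.val h) τ₀
      exact r3pt_injective W τ₀ h1
    · rintro ⟨P, hP⟩
      obtain ⟨Q, hQ⟩ := r3_surj W P hP
      refine ⟨Q, Subtype.ext ?_⟩
      funext τ
      exact (hQ τ).symm
  exact ⟨(AddEquiv.ofBijective F hF).symm⟩

end WR
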