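import Pool.Agent.MP_dfae13_nt.R.R3

/-!
# [RES-4a] injectivity of the Shapiro map
-/

set_option autoImplicit false

open NumberField IsDedekindDomain WeierstrassCurve.Affine Polynomial
open scoped Classical

namespace WR

variable {K : Type} [Field K] (W : WeierstrassCurve K)

/-- the cocycle relation, in a flexible form -/
theorem r4a_cocycle {c : GQ → APt W QBar} (hc : c ∈ cocycles W) (g h : GQ) (τ τ' : K →+* QBar)
    (hg : (g : QBar →+* QBar).comp τ = τ') :
    c (g * h) τ' = c g τ' + mapPt W (g : QBar →+* QBar) hg (c h τ) := by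
  subst hg
  exact hc.2 g h τ

theorem coboundary_of_component {K : Type} [Field K] [NumberField K] (W : WeierstrassCurve K)
    (τ₀ : K →+* QBar) (c : GQ → APt W QBar) (hc : c ∈ cocycles W)
    (P₀ : (W.map τ₀).toAffine.Point)
    (hP₀ : ∀ (g : GQ) (hg : (g : QBar →+* QBar).comp τ₀ = τ₀),
      c g τ₀ = mapPt W (g : QBar →+* QBar) hg P₀ - P₀) :
    c ∈ coboundaries W := by
  choose G hG using fun τ => r3_trans (K := K) τ₀ τ
  -- independence of the choice
  have key : ∀ (h h' : GQ) (τ : K →+* QBar) (hh : (h : QBar →+* QBar).comp τ₀ = τ)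
      (hh' : (h' : QBar →+* QBar).comp τ₀ = τ),
      mapPt W (h : QBar →+* QBar) hh P₀ - c h τ = mapPt W (h' : QBar →+* QBar) hh' P₀ - c h' τ := by
    intro h h' τ hh hh'
    have hk : ((h⁻¹ * h' : GQ) : QBar →+* QBar).comp τ₀ = τ₀ := by
      ext x
      have h1 : h (τ₀ x) = τ x := congrArg (fun f : K →+* QBar => f x) hh
      have h2 : h' (τ₀ x) = τ x := congrArg (fun f : K →+* QBar => f x) hh'
      show h⁻¹ (h' (τ₀ x)) = τ₀ x
      rw [h2, ← h1]
      exact h.symm_apply_apply _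
    have h1 := r4a_cocycle W hc h (h⁻¹ * h') τ₀ τ hh
    rw [mul_inv_cancel_left, hP₀ _ hk, map_sub, mapPt_mapPt] at h1
    have h2 : mapPt W ((h : QBar →+* QBar).comp ((h⁻¹ * h' : GQ) : QBar →+* QBar))
        (by rw [RingHom.comp_assoc, hk, hh]) P₀ = mapPt W (h' : QBar →+* QBar) hh' P₀ := by
      refine mapPt_congr W ?_ _ _ _
      ext x
      show h (h⁻¹ (h' x)) = h' x
      exact h.apply_symm_apply _
    rw [h1, h2]
    abel
  refine ⟨fun τ => mapPt W (G τ : QBar →+* QBar) (hG τ) P₀ - c (G τ) τ, fun g τ => ?_⟩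
  have hgG : ((g * G τ : GQ) : QBar →+* QBar).comp τ₀ = act g τ := by
    have h1 := hG τ
    calc ((g * G τ : GQ) : QBar →+* QBar).comp τ₀
        = (g : QBar →+* QBar).comp ((G τ : QBar →+* QBar).comp τ₀) := rfl
      _ = act g τ := by rw [h1]
  beta_reduce
  rw [← key (g * G τ) (G (act g τ)) (act g τ) hgG (hG _), map_sub, mapPt_mapPt,
    r4a_cocycle W hc g (G τ) τ (act g τ) rfl]
  have h2 : mapPt W ((g : QBar →+* QBar).comp (G τ : QBar →+* QBar))
      (by rw [RingHom.comp_assoc, hG]) P₀ = mapPt W ((g * G τ : GQ) : QBar →+* QBar) hgG P₀ :=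
    mapPt_congr W rfl _ _ _
  rw [h2]
  abel

end WR
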