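import Pool.Agent.MP_dfae13_nt.R.Basic

/-!
# [RES-4] the component of a cocycle: definitions
-/

set_option autoImplicit false

open NumberField IsDedekindDomain WeierstrassCurve.Affine Polynomial
open scoped Classical

namespace WR

/-- restriction to `Gal(K̄/K)` -/
noncomputable def resG {K : Type} [Field K] [NumberField K] (ψ : AlgebraicClosure K ≃+* QBar)
    (σ : SBSD.AbsGal K) : GQ :=
  AlgEquiv.ofRingEquiv (f := (ψ.symm.trans σ.toRingEquiv).trans ψ) (fun q => by simp)

/-- the component of a cocycle -/
noncomputable def comp0 {K : Type} [Field K] [NumberField K] (W : WeierstrassCurve K)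
    (ψ : AlgebraicClosure K ≃+* QBar) (c : GQ → APt W QBar) :
    SBSD.AbsGal K → SBSD.Pts W (AlgebraicClosure K) :=
  fun σ => mapPt W (τ' := algebraMap K (AlgebraicClosure K)) (ψ.symm : QBar →+* AlgebraicClosure K)
    (by ext x; simp) (c (resG ψ σ) ((ψ : AlgebraicClosure K →+* QBar).comp
      (algebraMap K (AlgebraicClosure K))))

end WR
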