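import Pool.Agent.MP_dfae13_nt.R.LDefs

/-!
# The Birch and Swinnerton-Dyer formula for Weil restrictions

Let `W` be an elliptic curve over a number field `K` of degree `n`, given by a Weierstrass equation.
The Weil restriction `A = Res_{K/ℚ} W` is an abelian variety of dimension `n` over `ℚ`, characterised
by `A(R) = W(K ⊗ R)` for all `ℚ`-algebras `R`. We define the group `A(ℚ)` and the Tate–Shafarevich
group of `A`, and we state the conjecture for `A` up to odd primes. Here `C` is an algebraic closure
of `ℚ` (in the final statement it is `AlgebraicClosure ℚ`).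
-/

set_option autoImplicit false

open NumberField IsDedekindDomain

namespace WeilRes

/-! ## Points over algebraically closed fields -/

section Points

variable {K : Type} [Field K] (W : WeierstrassCurve K)

/-- The group of the points over `L` of the conjugate curve `W^τ`. -/
def Pt {L : Type} [Field L] (τ : K →+* L) : Type := (W.map τ).toAffine.Point

open scoped Classical in
noncomputable instance {L : Type} [Field L] (τ : K →+* L) : AddCommGroup (Pt W τ) :=
  WeierstrassCurve.Affine.Point.instAddCommGroup (W := (W.map τ).toAffine)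

/-- The homomorphism `(x, y) ↦ (f x, f y)` from the group of the points over `L` of `W^τ` to the group
of the points over `L'` of `W^τ'`, where `f : L → L'` is a homomorphism of fields with `f ∘ τ = τ'`. -/
noncomputable def mapPt {L L' : Type} [Field L] [Field L'] (f : L →+* L') {τ : K →+* L}
    {τ' : K →+* L'} (h : f.comp τ = τ') : Pt W τ →+ Pt W τ' :=
  letI := Classical.decEq L
  letI := Classical.decEq L'
  letI := τ.toAlgebra
  letI := τ'.toAlgebra
  WeierstrassCurve.Affine.Point.map (W' := W) (S := K)
    { toRingHom := f, commutes' := fun x => congrArg (fun g : K →+* L' => g x) h }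

/-- The points of `A = Res_{K/ℚ} W` over an algebraically closed field `L` of characteristic 0:
since `K ⊗ L` is the product of copies of `L` indexed by the embeddings `τ` of `K` in `L`, this is
the product of the groups of the points over `L` of the conjugate curves `W^τ`. -/
def APt (L : Type) [Field L] : Type := ∀ τ : K →+* L, Pt W τ

noncomputable instance (L : Type) [Field L] : AddCommGroup (APt W L) := Pi.addCommGroup

theorem comp_symm {L : Type} [Field L] (s : L ≃+* L) (τ : K →+* L) :
    (s : L →+* L).comp ((s.symm : L →+* L).comp τ) = τ := by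
  ext x
  simp

/-- The action of the automorphism `s` of `L` on `A(L)`: the component of `s P` at `τ` is the image
under `s` of the component of `P` at `s⁻¹ ∘ τ`. -/
noncomputable def act {L : Type} [Field L] (s : L ≃+* L) (P : APt W L) : APt W L :=
  fun τ => mapPt W (s : L →+* L) (comp_symm s τ) (P ((s.symm : L →+* L).comp τ))

end Points

/-! ## Rational points and the Tate–Shafarevich group -/

section Sha

variable {K : Type} [Field K] (W : WeierstrassCurve K) (C : Type) [Field C] [Algebra ℚ C]

/-- The maps from `Gal(ℚ̄/ℚ)` to `A(ℚ̄)`. -/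
def Cochain : Type := (C ≃ₐ[ℚ] C) → APt W C

noncomputable instance : AddCommGroup (Cochain W C) := Pi.addCommGroup

variable {W C}

/-- `P ∈ A(ℚ̄)` is fixed by `Gal(ℚ̄/ℚ)`. -/
def IsRational (P : APt W C) : Prop := ∀ g : C ≃ₐ[ℚ] C, act W g.toRingEquiv P = P

/-- `c` is a continuous crossed homomorphism. -/
def IsCocycle (c : Cochain W C) : Prop :=
  IsLocallyConstant c ∧ ∀ g h : C ≃ₐ[ℚ] C, c (g * h) = c g + act W g.toRingEquiv (c h)

/-- `c` is the principal crossed homomorphism of a point. -/
def IsCoboundary (c : Cochain W C) : Prop :=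
  ∃ P : APt W C, ∀ g : C ≃ₐ[ℚ] C, c g = act W g.toRingEquiv P - P

/-- The crossed homomorphism `c : Gal(ℚ̄/ℚ) → A(ℚ̄)` becomes principal over the extension `L` of `ℚ`:
for every embedding `j : ℚ̄ → L̄`, the crossed homomorphism `Gal(L̄/L) → A(L̄)` which sends `σ` to the
image of `c g` under `j`, where `g` is the restriction of `σ` to `ℚ̄`, is principal. (The embeddings
of `K` in `L̄` are the `j ∘ τ`, where `τ` is an embedding of `K` in `ℚ̄`.) -/
def TrivialOver (L : Type) [Field L] [Algebra ℚ L] (c : Cochain W C) : Prop :=
  ∀ j : C →+* AlgebraicClosure L, ∃ Q : APt W (AlgebraicClosure L),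
    ∀ (σ : AlgebraicClosure L ≃ₐ[L] AlgebraicClosure L) (g : C ≃ₐ[ℚ] C),
      (∀ x, σ (j x) = j (g x)) → ∀ τ : K →+* C,
        mapPt W j rfl (c g τ) = (act W σ.toRingEquiv Q - Q) (j.comp τ)

/-- The class of `c` in `H¹(ℚ, A)` is in the kernel of `H¹(ℚ, A) → ∏_v H¹(ℚ_v, A)`; the product is over
all places `v` of `ℚ`. -/
def IsLocTrivial (c : Cochain W C) : Prop :=
  IsCocycle c ∧ (∀ (p : ℕ) [Fact p.Prime], TrivialOver ℚ_[p] c) ∧ TrivialOver ℝ c

variable (W C)

/-- The group `A(ℚ)` of the rational points of `A = Res_{K/ℚ} W`: the elements of `A(ℚ̄)` which are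
fixed by `Gal(ℚ̄/ℚ)`. (They are a subgroup, and we use the subgroup which they generate.) -/
noncomputable def rationalPoints : AddSubgroup (APt W C) := AddSubgroup.closure {P | IsRational P}

/-- The subgroup of the locally trivial crossed homomorphisms. (They are a subgroup, and we use the
subgroup which they generate.) -/
noncomputable def locTrivial : AddSubgroup (Cochain W C) := AddSubgroup.closure {c | IsLocTrivial c}

/-- The subgroup of the principal crossed homomorphisms. (They are a subgroup, and we use the
subgroup which they generate.) -/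
noncomputable def coboundaries : AddSubgroup (Cochain W C) := AddSubgroup.closure {c | IsCoboundary c}

/-- The Tate–Shafarevich group of `A = Res_{K/ℚ} W` over `ℚ`. -/
abbrev Sha : Type := locTrivial W C ⧸ (coboundaries W C).addSubgroupOf (locTrivial W C)

end Sha

/-! ## The conjecture up to odd primes -/

section

variable {K : Type} [Field K] [NumberField K] (W : WeierstrassCurve K)

/-- The group `A(ℚ)`. -/
abbrev RatPt : Type := rationalPoints W (AlgebraicClosure ℚ)

/-- The quotient `a #A(ℚ)_tors #A'(ℚ)_tors / (V_∞ V_bad)`; the abelian variety `A = Res_{K/ℚ} W` is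
isomorphic to its dual `A'`. If `A(ℚ)` is finite and `a = L(A, 1)`, the conjecture asserts that it is
the order of the Tate–Shafarevich group. -/
noncomputable def bsdQuotient (S : Finset ℕ) (a : ℂ) : ℂ :=
  a * (Nat.card (AddCommGroup.torsion (RatPt W)) : ℂ) ^ 2 / ((WR.Vinf W : ℂ) * (WR.Vbad W S : ℂ))

/-- The conjecture for `A = Res_{K/ℚ} W` (with rank 0) up to odd primes: `A(ℚ)` is finite (so that its
rank is 0 and its regulator is 1), the Euler product extends to an entire function `L` whose order of
vanishing at `1` is the rank of `A(ℚ)`, with `L(1) ≠ 0`, the Tate–Shafarevich group of `A` has no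
nonzero element of `2`-power order, and the quotient `L(1) #A(ℚ)_tors #A'(ℚ)_tors / (V_∞ V_bad)` is
a positive rational number whose `2`-adic valuation is 0. -/
def TwoPartFormula (S : Finset ℕ) : Prop :=
  Finite (RatPt W) ∧ ∃ L : ℂ → ℂ, WR.IsEntireL W S L ∧
    analyticOrderAt L 1 = Module.finrank ℤ (RatPt W) ∧ L 1 ≠ 0 ∧
    (∀ (x : Sha W (AlgebraicClosure ℚ)) (k : ℕ), 2 ^ k • x = 0 → x = 0) ∧
    ∃ q : ℚ, 0 < q ∧ padicValRat 2 q = 0 ∧ bsdQuotient W S (L 1) = q

end

end WeilRes
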